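import Pool.Agent.V11196.FS.Imposs2

/-! If the origin is interior, the signature `{0,2,3}` is impossible: conclusion. -/

open Set Filter Topology

namespace V11196.FS

variable {n : ℕ}

/-- a closed convex set containing a line in direction `v` is invariant under `v` -/
lemma recession {C : Set (Rn n)} (hcl : IsClosed C) (hcv : Convex ℝ C) {p v x : Rn n}
    (hx : x ∈ C) (hp : ∀ t : ℝ, p + t • v ∈ C) : x + v ∈ C := by
  have hlim : Tendsto (fun k : ℕ => x + v + ((1 : ℝ) / ((k : ℝ) + 1)) • (p - x)) atTop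
      (𝓝 (x + v)) := by
    have h1 := (tendsto_one_div_add_atTop_nhds_zero_nat (𝕜 := ℝ)).smul_const (p - x)
    have h2 := h1.const_add (x + v)
    simpa using h2
  refine hcl.mem_of_tendsto hlim (Eventually.of_forall fun k => ?_)
  have hk : (0:ℝ) < (k : ℝ) + 1 := by positivity
  have h1 := hcv hx (hp ((k : ℝ) + 1)) (a := 1 - 1 / ((k : ℝ) + 1)) (b := 1 / ((k : ℝ) + 1))
    (by rw [sub_nonneg, div_le_one hk]; linarith) (by positivity) (by ring)
  convert h1 using 1
  ext i
  simp only [PiLp.add_apply, PiLp.smul_apply, PiLp.sub_apply, smul_eq_mul]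
  field_simp
  ring

theorem Hyp.absurd' {C : Set (Rn n)} (h : Hyp C) : False := by
  have h2 : (2 : ℕ) ∈ signature C := by rw [h.sig]; simp
  obtain ⟨F, hF, hFne, hd⟩ := h2
  obtain ⟨m, hm, hFm⟩ := exposing h.zero (h.exp F hF hFne (h.facet_ne hd))
  obtain ⟨p, hp, ε, hε, hball⟩ := relint hF.2.1 hFne
  set V : Submodule ℝ (Rn n) := vectorSpan ℝ F with hV
  set F' : Set V := {v | p + (v : Rn n) ∈ F} with hF'
  have hFcl : IsClosed F := by
    rw [hFm]
    exact h.closed.inter (isClosed_eq (by fun_prop) continuous_const)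
  have hF'cl : IsClosed F' := hFcl.preimage (by fun_prop)
  have hF'cv : Convex ℝ F' := by
    intro x hx y hy α β hα hβ hαβ
    have h1 := hF.2.1 hx hy hα hβ hαβ
    have h2 : p + ((α • x + β • y : V) : Rn n) = α • (p + (x : Rn n)) + β • (p + (y : Rn n)) := by
      ext i
      simp only [PiLp.add_apply, PiLp.smul_apply, Submodule.coe_add, Submodule.coe_smul,
        smul_eq_mul]
      have hβ' : β = 1 - α := by linarith
      rw [hβ']; ring
    change p + ((α • x + β • y : V) : Rn n) ∈ F
    rw [h2]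
    exact h1
  have h0int : (0 : V) ∈ interior F' := by
    rw [mem_interior_iff_mem_nhds, Metric.mem_nhds_iff]
    refine ⟨ε, hε, fun v hv => ?_⟩
    apply hball _ v.2
    rw [Metric.mem_ball, dist_zero_right] at hv
    exact hv
  -- frontier points are extreme
  have hfr : ∀ v ∈ frontier F', IsFace C {p + (v : Rn n)} ∧ p + (v : Rn n) ∈ F := by
    intro v hv
    have hvF : v ∈ F' := hF'cl.frontier_subset hv
    have hvi : v ∉ interior F' := by
      rw [frontier, Set.mem_sdiff] at hv
      exact hv.2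
    refine ⟨?_, hvF⟩
    set e : Rn n := p + (v : Rn n) with he
    have heF : e ∈ F := hvF
    set G : Set (Rn n) := {f | f ∈ F ∧ ∃ ε : ℝ, 0 < ε ∧ e + ε • (e - f) ∈ F} with hG
    have hGF : IsFace F G := gen_face hF.2.1 e heF
    have hGC := face_trans hF hGF
    have heG : e ∈ G := ⟨heF, 1, one_pos, by simpa using heF⟩
    rcases h.dims hGC ⟨e, heG⟩ with h1 | h1 | h1
    · rw [← eq_singleton_of_dim heG h1]
      exact hGC
    · exfalso
      have h3 : G = F := same_dim hGF ⟨e, heG⟩ (by omega)
      have h4 : p ∈ G := by rw [h3]; exact hp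
      obtain ⟨-, δ, hδ, h5⟩ := h4
      have h6 : (1 + δ) • v ∈ F' := by
        change p + (((1 + δ) • v : V) : Rn n) ∈ F
        convert h5 using 1
        ext i
        simp only [he, PiLp.add_apply, PiLp.smul_apply, PiLp.sub_apply, Submodule.coe_smul,
          smul_eq_mul]
        ring
      apply hvi
      apply hF'cv.openSegment_interior_self_subset_interior h0int h6
      refine ⟨δ / (1 + δ), 1 / (1 + δ), by positivity, by positivity, by field_simp; ring, ?_⟩
      rw [smul_zero, zero_add, smul_smul, one_div, inv_mul_cancel₀ (by positivity), one_smul]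
    · have h7 : dim G ≤ dim F := Submodule.finrank_mono (vectorSpan_mono ℝ hGF.1)
      omega
  -- countably many extreme points in `F`
  have hX : {e | e ∈ F ∧ IsFace C {e}}.Countable := by
    have hch : ∀ e : Rn n, ∃ G : Set (Rn n), e ∈ {e | e ∈ F ∧ IsFace C {e}} →
        (IsFace C G ∧ dim G = 2) ∧ G ≠ F ∧ e ∈ G := by
      intro e
      by_cases he : e ∈ {e | e ∈ F ∧ IsFace C {e}}
      · obtain ⟨G, h1, h2, h3, h4⟩ := h.other_facet hF hd he.1 he.2
        exact ⟨G, fun _ => ⟨⟨h1, h2⟩, h3, h4⟩⟩
      · exact ⟨∅, fun h => absurd h he⟩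
    choose Φ hΦ using hch
    refine MapsTo.countable_of_injOn (f := Φ) (t := {G | IsFace C G ∧ dim G = 2}) ?_ ?_
      h.countable_facets
    · intro e he
      exact (hΦ e he).1
    · intro e he e' he' heq
      obtain ⟨⟨h1, h2⟩, h3, h4⟩ := hΦ e he
      obtain ⟨-, -, h4'⟩ := hΦ e' he'
      rw [← heq] at h4'
      have h5 := h.inter_facets hF h1 hd h2 h3.symm ⟨he.1, h4⟩
      have h6 : e' ∈ F ∩ Φ e := ⟨he'.1, h4'⟩
      rw [h5, mem_singleton_iff] at h6
      exact h6.symm
  have hfc : (frontier F').Countable := by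
    refine MapsTo.countable_of_injOn (f := fun v : V => p + (v : Rn n))
      (t := {e | e ∈ F ∧ IsFace C {e}}) ?_ ?_ hX
    · intro v hv
      exact ⟨(hfr v hv).2, (hfr v hv).1⟩
    · intro v _ w _ hvw
      have : (v : Rn n) = w := add_left_cancel hvw
      exact Subtype.ext this
  have hrank : 1 < Module.rank ℝ V := by
    have h1 : Module.finrank ℝ V = 2 := hd
    rw [← Module.finrank_eq_rank, h1]
    norm_cast
  have hconn := (hfc.isPathConnected_compl_of_one_lt_rank hrank).isConnected.isPreconnected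
  have hcov : (frontier F')ᶜ ⊆ interior F' ∪ F'ᶜ := by
    intro v hv
    by_cases h1 : v ∈ F'
    · left
      by_contra h2
      apply hv
      rw [frontier, Set.mem_sdiff]
      exact ⟨subset_closure h1, h2⟩
    · exact Or.inr h1
  have hdisj : Disjoint (interior F') F'ᶜ := by
    rw [disjoint_left]
    intro v hv hv'
    exact hv' (interior_subset hv)
  have h0f : (0 : V) ∈ (frontier F')ᶜ := by
    intro h1
    rw [frontier, Set.mem_sdiff] at h1
    exact h1.2 h0int
  have huniv : ∀ v : V, v ∈ F' := by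
    rcases IsPreconnected.subset_or_subset isOpen_interior hF'cl.isOpen_compl hdisj hcov hconn
      with h1 | h1
    · intro v
      by_contra hv
      have h2 : v ∈ (frontier F')ᶜ := fun h3 => hv (hF'cl.frontier_subset h3)
      exact hv (interior_subset (h1 h2))
    · exact absurd (interior_subset h0int) (h1 h0f)
  -- a line in `C`
  have h3 : (0 : ℕ) ∈ signature C := by rw [h.sig]; simp
  obtain ⟨E, hE, ⟨x0, hx0⟩, hdE⟩ := h3
  have hEs := eq_singleton_of_dim hx0 hdE
  rw [hEs] at hE
  have hV0 : ∃ v : V, v ≠ 0 := by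
    by_contra hcon
    push Not at hcon
    have : Subsingleton V := ⟨fun a b => by rw [hcon a, hcon b]⟩
    have h1 : Module.finrank ℝ V = 0 := Module.finrank_zero_of_subsingleton
    unfold dim at hd
    rw [← hV] at hd
    omega
  obtain ⟨v, hv⟩ := hV0
  have hline : ∀ t : ℝ, p + t • (v : Rn n) ∈ C := by
    intro t
    have := huniv (t • v)
    exact hF.1 this
  have hline' : ∀ t : ℝ, p + t • (-(v : Rn n)) ∈ C := by
    intro t
    have := hline (-t)
    rwa [neg_smul, ← smul_neg] at this
  have hx0C : x0 ∈ C := hE.1 rfl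
  have h4 := recession h.closed h.convex hx0C hline
  have h5 := recession h.closed h.convex hx0C hline'
  have h6 : x0 ∈ openSegment ℝ (x0 + (v : Rn n)) (x0 + -(v : Rn n)) := by
    refine ⟨1 / 2, 1 / 2, by norm_num, by norm_num, by norm_num, ?_⟩
    ext i
    simp only [PiLp.add_apply, PiLp.smul_apply, PiLp.neg_apply, smul_eq_mul]
    ring
  have h7 := (hE.2.2 _ h4 _ h5 ⟨x0, h6, rfl⟩).1
  rw [mem_singleton_iff, add_eq_left] at h7
  exact hv (Subtype.ext h7)

/-- spectrahedra are convex -/
lemma spec_convex {S : Set (Rn n)} (hS : IsSpectrahedron S) : Convex ℝ S := by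
  obtain ⟨m, A₀, A, hA₀, hA, rfl⟩ := hS
  intro x hx y hy α β hα hβ hαβ
  rw [mem_ofPred_eq] at hx hy ⊢
  have h1 : A₀ + ∑ i, (α • x + β • y) i • A i
      = α • (A₀ + ∑ i, x i • A i) + β • (A₀ + ∑ i, y i • A i) := by
    have hβ' : β = 1 - α := by linarith
    subst hβ'
    rw [smul_add, smul_add, Finset.smul_sum, Finset.smul_sum]
    have h2 : ∑ i, (α • x + (1 - α) • y) i • A i
        = ∑ i, α • x i • A i + ∑ i, (1 - α) • y i • A i := by
      rw [← Finset.sum_add_distrib]
      apply Finset.sum_congr rfl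
      intro i _
      simp only [PiLp.add_apply, PiLp.smul_apply, smul_eq_mul]
      rw [add_smul, smul_smul, smul_smul]
    rw [h2]
    module
  rw [h1]
  exact (hx.smul hα).add (hy.smul hβ)

/-- spectrahedra are closed -/
lemma spec_closed {S : Set (Rn n)} (hS : IsSpectrahedron S) : IsClosed S := by
  obtain ⟨m, A₀, A, hA₀, hA, rfl⟩ := hS
  have h1 : {x : Rn n | (A₀ + ∑ i, x i • A i).PosSemidef}
      = ⋂ v : Fin m → ℝ, {x : Rn n | 0 ≤ v ⬝ᵥ ((A₀ + ∑ i, x i • A i).mulVec v)} := by
    ext x
    rw [mem_ofPred_eq, Matrix.posSemidef_iff_dotProduct_mulVec, mem_iInter]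
    simp only [star_trivial, mem_ofPred_eq]
    refine and_iff_right ?_
    rw [Matrix.IsHermitian, Matrix.conjTranspose_eq_transpose_of_trivial,
      Matrix.transpose_add, Matrix.transpose_sum, hA₀]
    congr 1
    apply Finset.sum_congr rfl
    intro i _
    rw [Matrix.transpose_smul, hA i]
  rw [h1]
  refine isClosed_iInter fun v => isClosed_le continuous_const ?_
  apply Continuous.dotProduct continuous_const
  apply Continuous.matrix_mulVec _ continuous_const
  fun_prop

end V11196.FS
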