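import Pool.Agent.V11196.FS.Defs

/-! The body: a ball with disjoint caps cut off by parabolic cylinders. -/

open Set Filter Topology

namespace V11196.FS

noncomputable section

variable {n : ℕ}

/-- `∑_{i ≥ p} (x_i + 2)²` -/
def Q (p : ℕ) (x : Rn n) : ℝ := ∑ i : Fin n, if p ≤ (i : ℕ) then (x i + 2) ^ 2 else 0

/-- `∑_{i ≥ p} (x_i - y_i)²` -/
def D (p : ℕ) (x y : Rn n) : ℝ := ∑ i : Fin n, if p ≤ (i : ℕ) then (x i - y i) ^ 2 else 0

/-- the convex quadratic cutting the cap number `a` -/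
def qa (a : Fin n) (x : Rn n) : ℝ := (x a + 2) + 1 / 4 * Q ((a : ℕ) + 1) x

lemma Q_nonneg (p : ℕ) (x : Rn n) : 0 ≤ Q p x := by
  apply Finset.sum_nonneg
  intro i _
  split_ifs <;> positivity

lemma D_nonneg (p : ℕ) (x y : Rn n) : 0 ≤ D p x y := by
  apply Finset.sum_nonneg
  intro i _
  split_ifs <;> positivity

lemma D_eq_zero {p : ℕ} {x y : Rn n} (h : D p x y ≤ 0) (i : Fin n) (hi : p ≤ (i : ℕ)) :
    x i = y i := by
  have h0 : D p x y = 0 := le_antisymm h (D_nonneg p x y)
  unfold D at h0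
  rw [Finset.sum_eq_zero_iff_of_nonneg] at h0
  · have := h0 i (Finset.mem_univ i)
    rw [if_pos hi] at this
    have h2 : x i - y i = 0 := by simpa using this
    linarith
  · intro j _
    split_ifs <;> positivity

lemma Q_congr {p : ℕ} {x y : Rn n} (h : ∀ i : Fin n, p ≤ (i : ℕ) → x i = y i) :
    Q p x = Q p y := by
  unfold Q
  apply Finset.sum_congr rfl
  intro i _
  split_ifs with hi
  · rw [h i hi]
  · rfl

lemma qa_congr {a : Fin n} {x y : Rn n} (h : ∀ i : Fin n, (a : ℕ) ≤ (i : ℕ) → x i = y i) :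
    qa a x = qa a y := by
  unfold qa
  rw [h a le_rfl, Q_congr (fun i hi => h i (by omega))]

lemma Q_comb (p : ℕ) (x y : Rn n) (α β : ℝ) (h : α + β = 1) :
    Q p (α • x + β • y) = α * Q p x + β * Q p y - α * β * D p x y := by
  unfold Q D
  rw [Finset.mul_sum, Finset.mul_sum, Finset.mul_sum, ← Finset.sum_add_distrib,
    ← Finset.sum_sub_distrib]
  apply Finset.sum_congr rfl
  intro i _
  simp only [PiLp.add_apply, PiLp.smul_apply, smul_eq_mul]
  have hβ : β = 1 - α := by linarith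
  split_ifs
  · rw [hβ]; ring
  · ring

lemma qa_comb (a : Fin n) (x y : Rn n) (α β : ℝ) (h : α + β = 1) :
    qa a (α • x + β • y) = α * qa a x + β * qa a y - 1 / 4 * (α * β * D ((a : ℕ) + 1) x y) := by
  unfold qa
  rw [Q_comb _ x y α β h]
  simp only [PiLp.add_apply, PiLp.smul_apply, smul_eq_mul]
  have hβ : β = 1 - α := by linarith
  rw [hβ]; ring

lemma Q_continuous (p : ℕ) : Continuous (Q (n := n) p) := by
  unfold Q
  apply continuous_finsetSum
  intro i _
  split_ifs
  · fun_prop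
  · fun_prop

lemma qa_continuous (a : Fin n) : Continuous (qa a) := by
  unfold qa
  have := Q_continuous (n := n) ((a : ℕ) + 1)
  fun_prop

lemma Q_single_le {p : ℕ} (x : Rn n) (i : Fin n) (hi : p ≤ (i : ℕ)) : (x i + 2) ^ 2 ≤ Q p x := by
  unfold Q
  have h := Finset.single_le_sum (f := fun i : Fin n => if p ≤ (i : ℕ) then (x i + 2) ^ 2 else 0)
    (s := Finset.univ) (fun j _ => by simp only; split_ifs <;> positivity) (Finset.mem_univ i)
  simpa [hi] using h

lemma Q_succ_le {p : ℕ} (x : Rn n) (a : Fin n) (ha : p ≤ (a : ℕ)) :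
    (x a + 2) ^ 2 + Q ((a : ℕ) + 1) x ≤ Q p x := by
  have h1 : (x a + 2) ^ 2 = ∑ i : Fin n, if i = a then (x i + 2) ^ 2 else 0 := by
    rw [Finset.sum_ite_eq' Finset.univ a]; simp
  rw [h1]
  unfold Q
  rw [← Finset.sum_add_distrib]
  apply Finset.sum_le_sum
  intro i _
  by_cases h2 : i = a
  · subst h2
    simp [ha]
  · rw [if_neg h2]
    by_cases h3 : (a : ℕ) + 1 ≤ (i : ℕ)
    · rw [if_pos h3, if_pos (by omega)]; simp
    · rw [if_neg h3, add_zero]
      split_ifs
      · positivity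
      · exact le_rfl

/-- two distinct coordinates -/
lemma Q_pair_le {p : ℕ} (x : Rn n) (a b : Fin n) (hab : (a : ℕ) < b) (ha : p ≤ (a : ℕ)) :
    (x a + 2) ^ 2 + (x b + 2) ^ 2 ≤ Q p x :=
  (add_le_add le_rfl (Q_single_le x b (by omega))).trans (Q_succ_le x a ha)

/-- `δ` -/
def dl (n : ℕ) : ℝ := 1 / (64 * (n + 1))

lemma dl_pos (n : ℕ) : 0 < dl n := by unfold dl; positivity

lemma dl_le (n : ℕ) : dl n ≤ 1 / 64 := by
  unfold dl
  apply one_div_le_one_div_of_le (by norm_num)
  have : (0:ℝ) ≤ n := Nat.cast_nonneg n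
  linarith

lemma cap_coord {k : ℕ} {x : Rn n} {a : Fin n} (ha : k ≤ (a : ℕ)) (hQ : Q k x ≤ 1)
    (hq : 1 - dl n ≤ qa a x) : 1 - 2 * dl n ≤ x a + 2 := by
  have h1 := Q_succ_le x a ha
  have h2 := Q_nonneg ((a : ℕ) + 1) x
  unfold qa at hq
  set t := x a + 2
  have h3 : t ≤ 1 := by nlinarith
  nlinarith

lemma cap_unique {k : ℕ} {x : Rn n} {a b : Fin n} (ha : k ≤ (a : ℕ)) (hb : k ≤ (b : ℕ))
    (hQ : Q k x ≤ 1) (hqa : 1 - dl n ≤ qa a x) (hqb : 1 - dl n ≤ qa b x) : a = b := by
  have h1 := cap_coord ha hQ hqa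
  have h2 := cap_coord hb hQ hqb
  have h3 := dl_le n
  by_contra hab
  have hne : (a : ℕ) ≠ b := fun h => hab (Fin.ext h)
  have h4 : (x a + 2) ^ 2 + (x b + 2) ^ 2 ≤ 1 := by
    rcases lt_or_gt_of_ne hne with h | h
    · exact (Q_pair_le x a b h ha).trans hQ
    · have := (Q_pair_le x b a h hb).trans hQ
      linarith
  nlinarith

/-- the body -/
def S (I : Finset ℕ) (k : ℕ) : Set (Rn n) :=
  {x | Q k x ≤ 1 ∧ ∀ a : Fin n, (a : ℕ) ∈ I → k < (a : ℕ) → qa a x ≤ 1 - dl n}

lemma S_convex (I : Finset ℕ) (k : ℕ) : Convex ℝ (S (n := n) I k) := by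
  intro x hx y hy α β hα hβ hαβ
  refine ⟨?_, ?_⟩
  · rw [Q_comb _ x y α β hαβ]
    have := D_nonneg k x y
    have h1 := hx.1
    have h2 := hy.1
    have h3 : 0 ≤ α * β * D k x y := by positivity
    nlinarith
  · intro a ha hk
    rw [qa_comb _ x y α β hαβ]
    have := D_nonneg ((a : ℕ) + 1) x y
    have h1 := hx.2 a ha hk
    have h2 := hy.2 a ha hk
    have h3 : 0 ≤ α * β * D ((a : ℕ) + 1) x y := by positivity
    have h4 := mul_le_mul_of_nonneg_left h1 hα
    have h5 := mul_le_mul_of_nonneg_left h2 hβ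
    have h6 : α * (1 - dl n) + β * (1 - dl n) = 1 - dl n := by rw [← add_mul, hαβ, one_mul]
    linarith

/-- The set of points of `S` with the same coordinates as `z` from `a` on. -/
def Fz (I : Finset ℕ) (k a : ℕ) (z : Rn n) : Set (Rn n) :=
  {f | f ∈ S I k ∧ ∀ i : Fin n, a ≤ (i : ℕ) → f i = z i}

/-- `z` is a point of `S` in whose minimal face all coordinates `≥ a` are fixed and no other. -/
def Good (I : Finset ℕ) (k a : ℕ) (z : Rn n) : Prop :=
  z ∈ S I k ∧
  ((a = n ∧ Q k z < 1 ∧ ∀ b : Fin n, (b : ℕ) ∈ I → k < (b : ℕ) → qa b z < 1 - dl n) ∨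
   (a = k ∧ k < n ∧ Q k z = 1) ∨
   (a ∈ I ∧ k < a ∧ Q k z < 1 ∧ ∃ b : Fin n, (b : ℕ) = a ∧ qa b z = 1 - dl n))

lemma perturb {I : Finset ℕ} {k a : ℕ} {z : Rn n} (hz : Good I k a z) (v : Rn n)
    (hv : ∀ i : Fin n, a ≤ (i : ℕ) → v i = 0) :
    ∃ ε : ℝ, 0 < ε ∧ z + ε • v ∈ S I k ∧ z - ε • v ∈ S I k := by
  obtain ⟨hzS, hz⟩ := hz
  have hcong : ∀ (t : ℝ) (i : Fin n), a ≤ (i : ℕ) → (z + t • v) i = z i := by
    intro t i hi
    simp [hv i hi]
  have h1 : (∀ t : ℝ, Q k (z + t • v) ≤ 1) ∨ Q k z < 1 := by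
    rcases hz with ⟨_, h, _⟩ | ⟨rfl, _, h⟩ | ⟨_, _, h, _⟩
    · exact Or.inr h
    · left
      intro t
      rw [Q_congr (hcong t), h]
    · exact Or.inr h
  have h2 : ∀ b : Fin n, (b : ℕ) ∈ I → k < (b : ℕ) →
      (∀ t : ℝ, qa b (z + t • v) ≤ 1 - dl n) ∨ qa b z < 1 - dl n := by
    intro b hb hkb
    rcases hz with ⟨_, _, h⟩ | ⟨rfl, _, h⟩ | ⟨haI, hka, hQ, c, hca, hqc⟩
    · exact Or.inr (h b hb hkb)
    · left
      intro t
      rw [qa_congr (fun i hi => hcong t i (by omega))]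
      exact hzS.2 b hb hkb
    · by_cases hbc : b = c
      · left
        intro t
        subst hbc
        rw [qa_congr (fun i hi => hcong t i (by omega)), hqc]
      · right
        by_contra h
        push Not at h
        exact hbc (cap_unique hkb.le (by omega) hQ.le h hqc.ge)
  have hc : Continuous fun t : ℝ => z + t • v := by fun_prop
  have e1 : ∀ᶠ t in 𝓝 (0:ℝ), Q k (z + t • v) ≤ 1 := by
    rcases h1 with h | h
    · exact Eventually.of_forall h
    · have := ((Q_continuous (n := n) k).comp hc).tendsto 0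
      simp only [Function.comp_apply, zero_smul, add_zero] at this
      exact (this.eventually (gt_mem_nhds h)).mono fun t ht => ht.le
  have e2 : ∀ᶠ t in 𝓝 (0:ℝ), ∀ b : Fin n, (b : ℕ) ∈ I → k < (b : ℕ) →
      qa b (z + t • v) ≤ 1 - dl n := by
    rw [eventually_all]
    intro b
    by_cases hb : (b : ℕ) ∈ I
    · by_cases hkb : k < (b : ℕ)
      · rcases h2 b hb hkb with h | h
        · exact Eventually.of_forall fun t _ _ => h t
        · have := ((qa_continuous b).comp hc).tendsto 0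
          simp only [Function.comp_apply, zero_smul, add_zero] at this
          exact (this.eventually (gt_mem_nhds h)).mono fun t ht _ _ => ht.le
      · exact Eventually.of_forall fun t _ h => absurd h hkb
    · exact Eventually.of_forall fun t h => absurd h hb
  have e3 := e1.and e2
  obtain ⟨ε, hε, hball⟩ := Metric.eventually_nhds_iff.mp e3
  refine ⟨ε / 2, by positivity, ?_, ?_⟩
  · have := hball (y := ε / 2) (by rw [dist_zero_right, Real.norm_eq_abs, abs_of_pos (by positivity)]; linarith)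
    exact ⟨this.1, this.2⟩
  · have := hball (y := -(ε / 2)) (by
      rw [dist_zero_right, Real.norm_eq_abs, abs_neg, abs_of_pos (by positivity)]; linarith)
    rw [sub_eq_add_neg, ← neg_smul]
    exact ⟨this.1, this.2⟩

lemma Fz_convex (I : Finset ℕ) (k a : ℕ) (z : Rn n) : Convex ℝ (Fz I k a z) := by
  intro x hx y hy α β hα hβ hαβ
  refine ⟨S_convex I k hx.1 hy.1 hα hβ hαβ, ?_⟩
  intro i hi
  simp only [PiLp.add_apply, PiLp.smul_apply, smul_eq_mul]
  rw [hx.2 i hi, hy.2 i hi, ← add_mul, hαβ, one_mul]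

lemma Fz_isFace {I : Finset ℕ} {k a : ℕ} {z : Rn n} (hz : Good I k a z) :
    IsFace (S I k) (Fz I k a z) := by
  refine ⟨fun f hf => hf.1, Fz_convex I k a z, ?_⟩
  rintro x hx y hy ⟨w, ⟨α, β, hα, hβ, hαβ, rfl⟩, hw⟩
  obtain ⟨hzS, hz⟩ := hz
  rcases hz with ⟨rfl, _, _⟩ | ⟨rfl, _, h⟩ | ⟨haI, hka, hQ, c, hca, hqc⟩
  · exact ⟨⟨hx, fun i hi => absurd i.2 (by omega)⟩, ⟨hy, fun i hi => absurd i.2 (by omega)⟩⟩
  · have h1 : Q a (α • x + β • y) = 1 := by rw [Q_congr hw.2, h]
    rw [Q_comb _ x y α β hαβ] at h1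
    have h2 := hx.1
    have h3 := hy.1
    have h4 : D a x y ≤ 0 := by
      have : α * β * D a x y ≤ 0 := by nlinarith
      by_contra hcon
      push Not at hcon
      have : 0 < α * β * D a x y := by positivity
      linarith
    have h5 : ∀ i : Fin n, a ≤ (i : ℕ) → x i = y i := fun i hi => D_eq_zero h4 i hi
    have h6 : ∀ i : Fin n, a ≤ (i : ℕ) → x i = z i := by
      intro i hi
      have := hw.2 i hi
      simp only [PiLp.add_apply, PiLp.smul_apply, smul_eq_mul] at this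
      rw [← h5 i hi, ← add_mul, hαβ, one_mul] at this
      exact this
    exact ⟨⟨hx, h6⟩, ⟨hy, fun i hi => by rw [← h5 i hi, h6 i hi]⟩⟩
  · have h1 : qa c (α • x + β • y) = 1 - dl n := by
      rw [qa_congr (fun i hi => hw.2 i (by omega)), hqc]
    rw [qa_comb _ x y α β hαβ] at h1
    have h2 := hx.2 c (by rw [hca]; exact haI) (by omega)
    have h3 := hy.2 c (by rw [hca]; exact haI) (by omega)
    have h2' := mul_le_mul_of_nonneg_left h2 hα.le
    have h3' := mul_le_mul_of_nonneg_left h3 hβ.le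
    have h6' : α * (1 - dl n) + β * (1 - dl n) = 1 - dl n := by rw [← add_mul, hαβ, one_mul]
    have h4 : D ((c : ℕ) + 1) x y ≤ 0 := by
      have : α * β * D ((c : ℕ) + 1) x y ≤ 0 := by linarith
      by_contra hcon
      push Not at hcon
      have : 0 < α * β * D ((c : ℕ) + 1) x y := by positivity
      linarith
    have h5 : ∀ i : Fin n, (c : ℕ) + 1 ≤ (i : ℕ) → x i = y i := fun i hi => D_eq_zero h4 i hi
    have h7 : Q ((c : ℕ) + 1) x = Q ((c : ℕ) + 1) y := Q_congr h5
    have h8 : D ((c : ℕ) + 1) x y = 0 := le_antisymm h4 (D_nonneg _ _ _)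
    rw [h8] at h1
    have h9 : x c = y c := by
      have hx1 : qa c x = 1 - dl n := by
        have : α * qa c x = α * (1 - dl n) := by linarith
        exact mul_left_cancel₀ hα.ne' this
      have hy1 : qa c y = 1 - dl n := by
        have : β * qa c y = β * (1 - dl n) := by linarith
        exact mul_left_cancel₀ hβ.ne' this
      unfold qa at hx1 hy1
      rw [h7] at hx1
      linarith
    have h10 : ∀ i : Fin n, a ≤ (i : ℕ) → x i = y i := by
      intro i hi
      rcases Nat.eq_or_lt_of_le hi with h | h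
      · have : i = c := Fin.ext (by omega)
        rw [this, h9]
      · exact h5 i (by omega)
    have h6 : ∀ i : Fin n, a ≤ (i : ℕ) → x i = z i := by
      intro i hi
      have := hw.2 i hi
      simp only [PiLp.add_apply, PiLp.smul_apply, smul_eq_mul] at this
      rw [← h10 i hi, ← add_mul, hαβ, one_mul] at this
      exact this
    exact ⟨⟨hx, h6⟩, ⟨hy, fun i hi => by rw [← h10 i hi, h6 i hi]⟩⟩

/-- a face containing a good point contains `Fz` -/
lemma Fz_subset_face {I : Finset ℕ} {k a : ℕ} {z : Rn n} (hz : Good I k a z) {F : Set (Rn n)}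
    (hF : IsFace (S I k) F) (hzF : z ∈ F) : Fz I k a z ⊆ F := by
  rintro f ⟨hfS, hf⟩
  obtain ⟨ε, hε, h1, h2⟩ := perturb hz (f - z) (fun i hi => by simp [hf i hi])
  have h3 : z ∈ openSegment ℝ f (z - ε • (f - z)) := by
    refine ⟨ε / (1 + ε), 1 / (1 + ε), by positivity, by positivity, by field_simp; ring, ?_⟩
    ext i
    simp only [PiLp.add_apply, PiLp.smul_apply, PiLp.sub_apply, smul_eq_mul]
    field_simp
    ring
  exact (hF.2.2 f hfS _ h2 ⟨z, h3, hzF⟩).1

lemma good_of_face {I : Finset ℕ} {k : ℕ} (hkn : k ≤ n) {F : Set (Rn n)}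
    (hF : IsFace (S I k) F) (hne : F.Nonempty) :
    ∃ a z, Good I k a z ∧ F = Fz I k a z ∧ (a = n ∨ a = k ∨ a ∈ I) ∧ a ≤ n := by
  by_cases h1 : ∃ z ∈ F, Q k z < 1 ∧ ∀ b : Fin n, (b : ℕ) ∈ I → k < (b : ℕ) → qa b z < 1 - dl n
  · obtain ⟨z, hzF, hQ, hq⟩ := h1
    have hgood : Good I k n z := ⟨hF.1 hzF, Or.inl ⟨rfl, hQ, hq⟩⟩
    refine ⟨n, z, hgood, ?_, Or.inl rfl, le_rfl⟩
    apply Subset.antisymm
    · intro f hf
      exact ⟨hF.1 hf, fun i hi => absurd i.2 (by omega)⟩
    · exact Fz_subset_face hgood hF hzF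
  · by_cases h2 : ∃ z ∈ F, Q k z < 1
    · obtain ⟨z, hzF, hQ⟩ := h2
      have hzS := hF.1 hzF
      have h3 : ∃ b : Fin n, (b : ℕ) ∈ I ∧ k < (b : ℕ) ∧ qa b z = 1 - dl n := by
        by_contra hcon
        push Not at hcon
        exact h1 ⟨z, hzF, hQ, fun b hb hkb => lt_of_le_of_ne (hzS.2 b hb hkb) (hcon b hb hkb)⟩
      obtain ⟨c, hcI, hkc, hqc⟩ := h3
      have hgood : Good I k (c : ℕ) z := ⟨hzS, Or.inr (Or.inr ⟨hcI, hkc, hQ, c, rfl, hqc⟩)⟩
      refine ⟨c, z, hgood, ?_, Or.inr (Or.inr hcI), c.2.le⟩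
      apply Subset.antisymm
      · intro f hf
        have hfS := hF.1 hf
        refine ⟨hfS, ?_⟩
        -- midpoint
        have hm : ((1 / 2 : ℝ) • z + (1 / 2 : ℝ) • f) ∈ F :=
          hF.2.1 hzF hf (by norm_num) (by norm_num) (by norm_num)
        have hmS := hF.1 hm
        have hQm : Q k ((1 / 2 : ℝ) • z + (1 / 2 : ℝ) • f) < 1 := by
          rw [Q_comb _ z f _ _ (by norm_num)]
          have := D_nonneg k z f
          have := hfS.1
          linarith
        have h3 : ∃ b : Fin n, (b : ℕ) ∈ I ∧ k < (b : ℕ) ∧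
            qa b ((1 / 2 : ℝ) • z + (1 / 2 : ℝ) • f) = 1 - dl n := by
          by_contra hcon
          push Not at hcon
          exact h1 ⟨_, hm, hQm, fun b hb hkb =>
            lt_of_le_of_ne (hmS.2 b hb hkb) (hcon b hb hkb)⟩
        obtain ⟨b, hbI, hkb, hqb⟩ := h3
        rw [qa_comb _ z f _ _ (by norm_num)] at hqb
        have hD := D_nonneg ((b : ℕ) + 1) z f
        have hz2 := hzS.2 b hbI hkb
        have hf2 := hfS.2 b hbI hkb
        have hzb : qa b z = 1 - dl n := by nlinarith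
        have hfb : qa b f = 1 - dl n := by nlinarith
        have hD0 : D ((b : ℕ) + 1) z f ≤ 0 := by nlinarith
        have hbc : b = c := cap_unique hkb.le hkc.le hzS.1 hzb.ge hqc.ge
        subst hbc
        have h5 : ∀ i : Fin n, (b : ℕ) + 1 ≤ (i : ℕ) → z i = f i := fun i hi => D_eq_zero hD0 i hi
        have h7 : Q ((b : ℕ) + 1) z = Q ((b : ℕ) + 1) f := Q_congr h5
        have h9 : z b = f b := by
          unfold qa at hzb hfb
          rw [h7] at hzb
          linarith
        intro i hi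
        rcases Nat.eq_or_lt_of_le hi with h | h
        · have : i = b := Fin.ext (by omega)
          rw [this, h9]
        · exact (h5 i (by omega)).symm
      · exact Fz_subset_face hgood hF hzF
    · push Not at h2
      obtain ⟨z, hzF⟩ := hne
      have hzS := hF.1 hzF
      have hQ1 : ∀ w ∈ F, Q k w = 1 := fun w hw => le_antisymm (hF.1 hw).1 (h2 w hw)
      have hkn' : k < n := by
        rcases Nat.lt_or_ge k n with h | h
        · exact h
        · exfalso
          have hz1 := hQ1 z hzF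
          have : Q k z = 0 := by
            unfold Q
            apply Finset.sum_eq_zero
            intro i _
            rw [if_neg]
            have := i.2
            omega
          rw [this] at hz1
          norm_num at hz1
      have hgood : Good I k k z := ⟨hzS, Or.inr (Or.inl ⟨rfl, hkn', hQ1 z hzF⟩)⟩
      refine ⟨k, z, hgood, ?_, Or.inr (Or.inl rfl), hkn⟩
      apply Subset.antisymm
      · intro f hf
        refine ⟨hF.1 hf, ?_⟩
        have hm : ((1 / 2 : ℝ) • z + (1 / 2 : ℝ) • f) ∈ F :=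
          hF.2.1 hzF hf (by norm_num) (by norm_num) (by norm_num)
        have h3 := hQ1 _ hm
        rw [Q_comb _ z f _ _ (by norm_num), hQ1 z hzF, hQ1 f hf] at h3
        have hD0 : D k z f ≤ 0 := by linarith
        exact fun i hi => (D_eq_zero hD0 i hi).symm
      · exact Fz_subset_face hgood hF hzF

end

end V11196.FS
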