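import Mathlib

/-! Definitions for MP_f0e28a : faces, exposed faces, spectrahedra, polars. -/

open Set

namespace V11196.FS

/-- Euclidean space `ℝⁿ`. -/
abbrev Rn (n : ℕ) := EuclideanSpace ℝ (Fin n)

/-- `F` is a face of `C` (the empty set is allowed). -/
def IsFace {n : ℕ} (C F : Set (Rn n)) : Prop :=
  F ⊆ C ∧ Convex ℝ F ∧
    ∀ x ∈ C, ∀ y ∈ C, (openSegment ℝ x y ∩ F).Nonempty → x ∈ F ∧ y ∈ F

/-- The dimension of (the affine hull of) a set. -/
noncomputable def dim {n : ℕ} (F : Set (Rn n)) : ℕ := Module.finrank ℝ (vectorSpan ℝ F)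

/-- The facial dimension signature. -/
def signature {n : ℕ} (C : Set (Rn n)) : Set ℕ := {m | ∃ F, IsFace C F ∧ F.Nonempty ∧ dim F = m}

/-- `F` is cut out of `C` by the boundary hyperplane of a closed half-space containing `C`. -/
def IsExposed {n : ℕ} (C F : Set (Rn n)) : Prop :=
  ∃ (g : Rn n) (b : ℝ), g ≠ 0 ∧ (∀ x ∈ C, inner ℝ g x ≤ b) ∧ {x | x ∈ C ∧ inner ℝ g x = b} = F

/-- Every nonempty proper face is exposed. -/
def FaciallyExposed {n : ℕ} (C : Set (Rn n)) : Prop :=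
  ∀ F, IsFace C F → F.Nonempty → F ≠ C → IsExposed C F

/-- Feasible sets of linear matrix inequalities `A₀ + x₁A₁ + … + xₙAₙ ⪰ 0`, with real symmetric
matrices of a common size. -/
def IsSpectrahedron {n : ℕ} (S : Set (Rn n)) : Prop :=
  ∃ (m : ℕ) (A₀ : Matrix (Fin m) (Fin m) ℝ) (A : Fin n → Matrix (Fin m) (Fin m) ℝ),
    A₀.IsSymm ∧ (∀ i, (A i).IsSymm) ∧ S = {x | (A₀ + ∑ i, x i • A i).PosSemidef}

/-- The polar `C° = {y : ⟨x, y⟩ ≤ 1 for all x ∈ C}`. -/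
def polar {n : ℕ} (C : Set (Rn n)) : Set (Rn n) := {y | ∀ x ∈ C, inner ℝ x y ≤ 1}

end V11196.FS
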