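import Pool.Agent.V11196.FS.Defs

/-! If the origin is interior, the signature `{0,2,3}` is impossible. -/

open Set Filter Topology

namespace V11196.FS

variable {n : ℕ}

lemma relint {G : Set (Rn n)} (hc : Convex ℝ G) (hne : G.Nonempty) :
    ∃ z ∈ G, ∃ ε > 0, ∀ v ∈ vectorSpan ℝ G, ‖v‖ < ε → z + v ∈ G := by
  obtain ⟨z, hz⟩ := Set.Nonempty.intrinsicInterior hc hne
  rw [mem_intrinsicInterior] at hz
  obtain ⟨y, hy, rfl⟩ := hz
  rw [mem_interior_iff_mem_nhds, Metric.mem_nhds_iff] at hy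
  obtain ⟨ε, hε, hball⟩ := hy
  refine ⟨y, hball (Metric.mem_ball_self hε), ε, hε, ?_⟩
  intro v hv hvε
  have hmem : (y : Rn n) + v ∈ affineSpan ℝ G := by
    rw [add_comm]
    exact AffineSubspace.vadd_mem_of_mem_direction (by rw [direction_affineSpan]; exact hv) y.2
  have h2 : (⟨y + v, hmem⟩ : affineSpan ℝ G) ∈ Metric.ball y ε := by
    rw [Metric.mem_ball, Subtype.dist_eq, dist_eq_norm]; simpa using hvε
  exact hball h2

lemma same_dim {C G : Set (Rn n)} (hG : IsFace C G) (hne : G.Nonempty)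
    (h : dim C ≤ dim G) : G = C := by
  apply Subset.antisymm hG.1
  obtain ⟨z, hz, ε, hε, hball⟩ := relint hG.2.1 hne
  have hle : vectorSpan ℝ G ≤ vectorSpan ℝ C := vectorSpan_mono ℝ hG.1
  have heq : vectorSpan ℝ G = vectorSpan ℝ C :=
    Submodule.eq_of_le_of_finrank_eq hle (le_antisymm (Submodule.finrank_mono hle) h)
  intro f hf
  have hv : z - f ∈ vectorSpan ℝ G := by
    rw [heq]; exact vsub_mem_vectorSpan ℝ (hG.1 hz) hf
  set t : ℝ := ε / (2 * (‖z - f‖ + 1)) with ht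
  have hpos : 0 < ‖z - f‖ + 1 := by positivity
  have ht0 : 0 < t := by positivity
  have h1 : z + t • (z - f) ∈ G := by
    apply hball _ (Submodule.smul_mem _ _ hv)
    rw [norm_smul, Real.norm_eq_abs, abs_of_pos ht0, ht, div_mul_eq_mul_div,
      div_lt_iff₀ (by positivity)]
    nlinarith [norm_nonneg (z - f)]
  have h3 : z ∈ openSegment ℝ f (z + t • (z - f)) := by
    refine ⟨t / (1 + t), 1 / (1 + t), by positivity, by positivity, by field_simp; ring, ?_⟩
    ext i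
    simp only [PiLp.add_apply, PiLp.smul_apply, PiLp.sub_apply, smul_eq_mul]
    field_simp
    ring
  exact (hG.2.2 f hf _ (hG.1 h1) ⟨z, h3, hz⟩).1

lemma face_trans {C F G : Set (Rn n)} (hF : IsFace C F) (hG : IsFace F G) : IsFace C G := by
  refine ⟨hG.1.trans hF.1, hG.2.1, ?_⟩
  rintro x hx y hy ⟨w, hw, hwG⟩
  obtain ⟨hxF, hyF⟩ := hF.2.2 x hx y hy ⟨w, hw, hG.1 hwG⟩
  exact hG.2.2 x hxF y hyF ⟨w, hw, hwG⟩

lemma face_inter {C F G : Set (Rn n)} (hF : IsFace C F) (hG : IsFace C G) : IsFace C (F ∩ G) := by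
  refine ⟨fun x hx => hF.1 hx.1, hF.2.1.inter hG.2.1, ?_⟩
  rintro x hx y hy ⟨w, hw, hwF, hwG⟩
  exact ⟨⟨(hF.2.2 x hx y hy ⟨w, hw, hwF⟩).1, (hG.2.2 x hx y hy ⟨w, hw, hwG⟩).1⟩,
    ⟨(hF.2.2 x hx y hy ⟨w, hw, hwF⟩).2, (hG.2.2 x hx y hy ⟨w, hw, hwG⟩).2⟩⟩

lemma face_sub {C F G : Set (Rn n)} (hF : F ⊆ C) (hG : IsFace C G) (hGF : G ⊆ F) :
    IsFace F G :=
  ⟨hGF, hG.2.1, fun x hx y hy h => hG.2.2 x (hF hx) y (hF hy) h⟩

lemma eq_singleton_of_dim {G : Set (Rn n)} {e : Rn n} (he : e ∈ G) (h : dim G = 0) : G = {e} := by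
  unfold dim at h
  rw [Submodule.finrank_eq_zero, vectorSpan_eq_bot_iff_subsingleton] at h
  exact h.eq_singleton_of_mem he

/-- the face generated by a point -/
lemma gen_face {F : Set (Rn n)} (hF : Convex ℝ F) (e : Rn n) (he : e ∈ F) :
    IsFace F {f | f ∈ F ∧ ∃ ε : ℝ, 0 < ε ∧ e + ε • (e - f) ∈ F} := by
  have hmono : ∀ f : Rn n, ∀ ε : ℝ, 0 < ε → e + ε • (e - f) ∈ F → ∀ δ : ℝ, 0 < δ → δ ≤ ε →
      e + δ • (e - f) ∈ F := by
    intro f ε hε h δ hδ hδε
    have h1 := hF he h (a := 1 - δ / ε) (b := δ / ε)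
      (by rw [sub_nonneg, div_le_one hε]; exact hδε) (by positivity) (by ring)
    convert h1 using 1
    ext i
    simp only [PiLp.add_apply, PiLp.smul_apply, PiLp.sub_apply, smul_eq_mul]
    field_simp
    ring
  refine ⟨fun f hf => hf.1, ?_, ?_⟩
  · rintro x ⟨hx, ε₁, hε₁, h₁⟩ y ⟨hy, ε₂, hε₂, h₂⟩ α β hα hβ hαβ
    refine ⟨hF hx hy hα hβ hαβ, min ε₁ ε₂, lt_min hε₁ hε₂, ?_⟩
    have h3 := hmono x ε₁ hε₁ h₁ (min ε₁ ε₂) (lt_min hε₁ hε₂) (min_le_left _ _)
    have h4 := hmono y ε₂ hε₂ h₂ (min ε₁ ε₂) (lt_min hε₁ hε₂) (min_le_right _ _)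
    have h5 := hF h3 h4 hα hβ hαβ
    convert h5 using 1
    ext i
    simp only [PiLp.add_apply, PiLp.smul_apply, PiLp.sub_apply, smul_eq_mul]
    have hβ' : β = 1 - α := by linarith
    rw [hβ']; ring
  · rintro x hx y hy ⟨w, ⟨α, β, hα, hβ, hαβ, rfl⟩, -, ε, hε, h⟩
    have key : ∀ (p q : Rn n) (a b : ℝ), p ∈ F → q ∈ F → 0 < a → 0 < b → a + b = 1 →
        e + ε • (e - (a • p + b • q)) ∈ F → p ∈ {f | f ∈ F ∧ ∃ ε : ℝ, 0 < ε ∧ e + ε • (e - f) ∈ F} := by
      intro p q a b hp hq ha hb hab hh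
      refine ⟨hp, ε * a / (1 + ε * b), by positivity, ?_⟩
      have h1 := hF hh hq (a := 1 / (1 + ε * b)) (b := ε * b / (1 + ε * b)) (by positivity)
        (by positivity) (by field_simp)
      convert h1 using 1
      ext i
      simp only [PiLp.add_apply, PiLp.smul_apply, PiLp.sub_apply, smul_eq_mul]
      have hb' : b = 1 - a := by linarith
      have hb'' : a < 1 := by linarith
      have : 0 < 1 + ε * b := by positivity
      field_simp
      rw [hb']
      ring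
    refine ⟨key x y α β hx hy hα hβ hαβ h, key y x β α hy hx hβ hα (by linarith) ?_⟩
    rw [add_comm (β • y)]
    exact h

lemma level_face {C : Set (Rn n)} (hC : Convex ℝ C) (m : Rn n)
    (hm : ∀ x ∈ C, inner ℝ m x ≤ 1) : IsFace C {x | x ∈ C ∧ inner ℝ m x = 1} := by
  refine ⟨fun x hx => hx.1, ?_, ?_⟩
  · rintro x ⟨hx, hx1⟩ y ⟨hy, hy1⟩ α β hα hβ hαβ
    refine ⟨hC hx hy hα hβ hαβ, ?_⟩
    rw [inner_add_right, inner_smul_right, inner_smul_right, hx1, hy1]
    linarith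
  · rintro x hx y hy ⟨w, ⟨α, β, hα, hβ, hαβ, rfl⟩, -, hw⟩
    rw [inner_add_right, inner_smul_right, inner_smul_right] at hw
    have h1 := hm x hx
    have h2 := hm y hy
    have h3 := mul_le_mul_of_nonneg_left h1 hα.le
    have h4 := mul_le_mul_of_nonneg_left h2 hβ.le
    refine ⟨⟨hx, ?_⟩, ⟨hy, ?_⟩⟩
    · have : α * inner ℝ m x = α * 1 := by linarith
      exact mul_left_cancel₀ hα.ne' this
    · have : β * inner ℝ m y = β * 1 := by linarith
      exact mul_left_cancel₀ hβ.ne' this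

/-- exposing vector, normalised -/
lemma exposing {C F : Set (Rn n)} (h0 : 0 ∈ interior C) (hF : IsExposed C F) :
    ∃ m ∈ polar C, F = {x | x ∈ C ∧ inner ℝ m x = 1} := by
  obtain ⟨g, b, hg, hle, heq⟩ := hF
  have hb : 0 < b := by
    rw [mem_interior_iff_mem_nhds, Metric.mem_nhds_iff] at h0
    obtain ⟨ρ, hρ, hball⟩ := h0
    have hng : 0 < ‖g‖ := norm_pos_iff.mpr hg
    have h1 : (ρ / 2 / ‖g‖) • g ∈ C := by
      apply hball
      rw [Metric.mem_ball, dist_zero_right, norm_smul, Real.norm_eq_abs,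
        abs_of_pos (by positivity)]
      rw [div_mul_cancel₀ _ hng.ne']
      linarith
    have h2 := hle _ h1
    rw [inner_smul_right, real_inner_self_eq_norm_sq] at h2
    have h3 : 0 < ρ / 2 / ‖g‖ * ‖g‖ ^ 2 := by positivity
    linarith
  refine ⟨b⁻¹ • g, ?_, ?_⟩
  · intro x hx
    rw [real_inner_comm, inner_smul_left]
    simp only [conj_trivial]
    rw [inv_mul_le_iff₀ hb, mul_one]
    exact hle x hx
  · rw [← heq]
    ext x
    constructor
    · rintro ⟨hx, h⟩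
      refine ⟨hx, ?_⟩
      rw [inner_smul_left]
      simp only [conj_trivial]
      rw [h, inv_mul_cancel₀ hb.ne']
    · rintro ⟨hx, h⟩
      refine ⟨hx, ?_⟩
      rw [inner_smul_left] at h
      simp only [conj_trivial] at h
      rw [inv_mul_eq_iff_eq_mul₀ hb.ne', mul_one] at h
      exact h

lemma polar_convex (C : Set (Rn n)) : Convex ℝ (polar C) := by
  intro x hx y hy α β hα hβ hαβ z hz
  rw [inner_add_right, inner_smul_right, inner_smul_right]
  have h3 := mul_le_mul_of_nonneg_left (hx z hz) hα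
  have h4 := mul_le_mul_of_nonneg_left (hy z hz) hβ
  linarith

lemma polar_closed (C : Set (Rn n)) : IsClosed (polar C) := by
  have : polar C = ⋂ x ∈ C, {y | inner ℝ x y ≤ 1} := by
    ext y; simp [polar]
  rw [this]
  refine isClosed_iInter fun x => isClosed_iInter fun _ => ?_
  exact isClosed_le (by fun_prop) continuous_const

lemma zero_mem_polar (C : Set (Rn n)) : (0 : Rn n) ∈ polar C := by
  intro x _
  simp

lemma polar_bounded {C : Set (Rn n)} (h0 : 0 ∈ interior C) :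
    Bornology.IsBounded (polar C) := by
  rw [mem_interior_iff_mem_nhds, Metric.mem_nhds_iff] at h0
  obtain ⟨ρ, hρ, hball⟩ := h0
  rw [isBounded_iff_forall_norm_le]
  refine ⟨2 / ρ, fun y hy => ?_⟩
  by_cases hy0 : y = 0
  · rw [hy0, norm_zero]; positivity
  · have hny : 0 < ‖y‖ := norm_pos_iff.mpr hy0
    have h1 : (ρ / 2 / ‖y‖) • y ∈ C := by
      apply hball
      rw [Metric.mem_ball, dist_zero_right, norm_smul, Real.norm_eq_abs,
        abs_of_pos (by positivity)]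
      rw [div_mul_cancel₀ _ hny.ne']
      linarith
    have h2 := hy _ h1
    rw [inner_smul_left, real_inner_self_eq_norm_sq] at h2
    simp only [conj_trivial] at h2
    have h3 : ρ / 2 / ‖y‖ * ‖y‖ ^ 2 = ρ / 2 * ‖y‖ := by field_simp
    rw [h3] at h2
    rw [le_div_iff₀ hρ]
    linarith

lemma bipolar {C : Set (Rn n)} (hcl : IsClosed C) (hcv : Convex ℝ C) (h0 : (0 : Rn n) ∈ C)
    {z : Rn n} (hz : ∀ y ∈ polar C, inner ℝ z y ≤ 1) : z ∈ C := by
  by_contra hcon
  obtain ⟨f, u, h1, h2⟩ := geometric_hahn_banach_closed_point hcv hcl hcon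
  have hu : 0 < u := by
    have := h1 0 h0
    simpa using this
  set y : Rn n := (InnerProductSpace.toDual ℝ (Rn n)).symm f with hy
  have hfy : ∀ x, f x = inner ℝ y x := by
    intro x
    rw [hy, InnerProductSpace.toDual_symm_apply]
  have h3 : u⁻¹ • y ∈ polar C := by
    intro x hx
    rw [inner_smul_right, inv_mul_le_iff₀ hu, mul_one, real_inner_comm, ← hfy]
    exact (h1 x hx).le
  have h4 := hz _ h3
  rw [inner_smul_right, inv_mul_le_iff₀ hu, mul_one, real_inner_comm, ← hfy] at h4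
  linarith

end V11196.FS
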