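import Pool.Agent.V11196.FS.Imposs

/-! If the origin is interior, the signature `{0,2,3}` is impossible: main argument. -/

open Set Filter Topology

namespace V11196.FS

variable {n : ℕ}

/-- hypotheses collected -/
structure Hyp (C : Set (Rn n)) : Prop where
  closed : IsClosed C
  convex : Convex ℝ C
  zero : 0 ∈ interior C
  sig : signature C = {0, 2, 3}
  exp : FaciallyExposed C
  pexp : FaciallyExposed (polar C)

section
variable {C : Set (Rn n)} (h : Hyp C)
include h

lemma Hyp.zmem : (0 : Rn n) ∈ C := interior_subset h.zero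

lemma Hyp.self_face : IsFace C C :=
  ⟨Subset.rfl, h.convex, fun _ hx _ hy _ => ⟨hx, hy⟩⟩

lemma Hyp.dim_self : dim C = n := by
  unfold dim
  have h1 : vectorSpan ℝ C = ⊤ := by
    have h2 : (interior (vectorSpan ℝ C : Set (Rn n))).Nonempty := by
      refine ⟨0, interior_mono ?_ h.zero⟩
      intro x hx
      have := vsub_mem_vectorSpan ℝ hx h.zmem
      simpa using this
    exact Submodule.eq_top_of_nonempty_interior' _ h2
  rw [h1, finrank_top]
  simp

lemma Hyp.dims {F : Set (Rn n)} (hF : IsFace C F) (hne : F.Nonempty) :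
    dim F = 0 ∨ dim F = 2 ∨ dim F = 3 := by
  have : dim F ∈ signature C := ⟨F, hF, hne, rfl⟩
  rw [h.sig] at this
  simpa using this

lemma Hyp.n_eq : n = 3 := by
  have h3 : (3 : ℕ) ∈ signature C := by rw [h.sig]; simp
  obtain ⟨F, hF, hne, hd⟩ := h3
  have h1 : dim F ≤ n := by
    unfold dim
    calc Module.finrank ℝ (vectorSpan ℝ F) ≤ Module.finrank ℝ (Rn n) := Submodule.finrank_le _
      _ = n := by simp
  have h2 := h.dims h.self_face ⟨0, h.zmem⟩
  rw [h.dim_self] at h2
  omega

lemma Hyp.dim_C : dim C = 3 := by rw [h.dim_self, h.n_eq]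

lemma Hyp.facet_ne {F : Set (Rn n)} (hd : dim F = 2) : F ≠ C := by
  rintro rfl
  rw [h.dim_C] at hd
  omega

omit h in
lemma facet_nonempty {F : Set (Rn n)} (hd : dim F = 2) : F.Nonempty := by
  by_contra hne
  rw [not_nonempty_iff_eq_empty] at hne
  subst hne
  unfold dim at hd
  rw [vectorSpan_empty] at hd
  simp at hd

/-- the intersection of two distinct facets is at most a point -/
lemma Hyp.inter_facets {F G : Set (Rn n)} (hF : IsFace C F) (hG : IsFace C G) (hdF : dim F = 2)
    (hdG : dim G = 2) (hne : F ≠ G) {e : Rn n} (he : e ∈ F ∩ G) : F ∩ G = {e} := by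
  have hI := face_inter hF hG
  have h1 : dim (F ∩ G) ≤ dim F := Submodule.finrank_mono (vectorSpan_mono ℝ inter_subset_left)
  rcases h.dims hI ⟨e, he⟩ with h2 | h2 | h2
  · exact eq_singleton_of_dim he h2
  · exfalso
    apply hne
    have h3 : F ∩ G = F := same_dim (face_sub hF.1 hI inter_subset_left) ⟨e, he⟩ (by omega)
    have h4 : F ∩ G = G := same_dim (face_sub hG.1 hI inter_subset_right) ⟨e, he⟩ (by omega)
    rw [← h3]; exact h4
  · omega

/-- every extreme point in a facet lies in another facet -/
lemma Hyp.other_facet {F : Set (Rn n)} (hF : IsFace C F) (hd : dim F = 2) {e : Rn n}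
    (he : e ∈ F) (hef : IsFace C {e}) : ∃ G, IsFace C G ∧ dim G = 2 ∧ G ≠ F ∧ e ∈ G := by
  have hn := h.n_eq
  have hFne := h.facet_ne hd
  obtain ⟨m0, hm0, hFm⟩ := exposing h.zero (h.exp F hF ⟨e, he⟩ hFne)
  have heC : ({e} : Set (Rn n)) ≠ C := by
    intro h1
    have h2 := h.dim_C
    rw [← h1] at h2
    unfold dim at h2
    rw [vectorSpan_singleton] at h2
    simp at h2
  obtain ⟨ye, hye, hE⟩ := exposing h.zero (h.exp {e} hef ⟨e, rfl⟩ heC)
  have hem0 : inner ℝ m0 e = 1 := by
    have := he
    rw [hFm] at this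
    exact this.2
  have heye : inner ℝ ye e = 1 := by
    have : e ∈ ({e} : Set (Rn n)) := rfl
    rw [hE] at this
    exact this.2
  have heCm : e ∈ C := hF.1 he
  -- the dual face of `e`
  set D : Set (Rn n) := {y | y ∈ polar C ∧ inner ℝ e y = 1} with hD
  have hDface : IsFace (polar C) D :=
    level_face (polar_convex C) e (fun y hy => hy e heCm)
  have hDcomp : IsCompact D := by
    apply Metric.isCompact_of_isClosed_isBounded
    · exact (polar_closed C).inter (isClosed_eq (by fun_prop) continuous_const)
    · exact (polar_bounded h.zero).subset (fun y hy => hy.1)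
  have hm0D : m0 ∈ D := ⟨hm0, by rw [real_inner_comm]; exact hem0⟩
  have hyeD : ye ∈ D := ⟨hye, by rw [real_inner_comm]; exact heye⟩
  have hyem0 : ye ≠ m0 := by
    rintro rfl
    have h1 : F = {e} := by rw [hFm, ← hE]
    rw [h1] at hd
    unfold dim at hd
    rw [vectorSpan_singleton] at hd
    simp at hd
  obtain ⟨m, hmext, hmm0⟩ : ∃ m ∈ D.extremePoints ℝ, m ≠ m0 := by
    by_contra hcon
    push Not at hcon
    have h1 := closure_convexHull_extremePoints hDcomp hDface.2.1
    have h2 : D.extremePoints ℝ ⊆ {m0} := fun m hm => hcon m hm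
    have h3 : convexHull ℝ (D.extremePoints ℝ) ⊆ {m0} :=
      convexHull_min h2 (convex_singleton m0)
    have h4 : closure (convexHull ℝ (D.extremePoints ℝ)) ⊆ {m0} :=
      closure_minimal h3 isClosed_singleton
    rw [h1] at h4
    exact hyem0 (h4 hyeD)
  rw [mem_extremePoints] at hmext
  obtain ⟨hmD, hmext⟩ := hmext
  have hme : inner ℝ e m = 1 := hmD.2
  have hmface : IsFace (polar C) {m} := by
    refine ⟨by rw [singleton_subset_iff]; exact hmD.1, convex_singleton m, ?_⟩
    rintro x hx y hy ⟨w, hw, hwm⟩
    rw [mem_singleton_iff] at hwm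
    subst hwm
    obtain ⟨hxD, hyD⟩ := hDface.2.2 x hx y hy ⟨w, hw, hmD⟩
    have := hmext x hxD y hyD hw
    exact ⟨this.1, this.2⟩
  have hmne : ({m} : Set (Rn n)) ≠ polar C := by
    intro h1
    have h2 := zero_mem_polar C
    rw [← h1, mem_singleton_iff] at h2
    rw [← h2] at hme
    simp at hme
  obtain ⟨z, b, hz0, hzle, hzeq⟩ := h.pexp {m} hmface ⟨m, rfl⟩ hmne
  have hmz : inner ℝ z m = b := by
    have : m ∈ ({m} : Set (Rn n)) := rfl
    rw [← hzeq] at this
    exact this.2
  have hb0 : 0 ≤ b := by
    have := hzle 0 (zero_mem_polar C)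
    simpa using this
  have hb : 0 < b := by
    rcases hb0.eq_or_lt with h1 | h1
    · exfalso
      have h2 : (0 : Rn n) ∈ ({m} : Set (Rn n)) := by
        rw [← hzeq]
        exact ⟨zero_mem_polar C, by simpa using h1⟩
      rw [mem_singleton_iff] at h2
      rw [← h2] at hme
      simp at hme
    · exact h1
  set z' : Rn n := b⁻¹ • z with hz'
  have hz'in : ∀ y, inner ℝ z' y = b⁻¹ * inner ℝ z y := by
    intro y
    rw [hz', inner_smul_left]
    simp
  have hz'C : z' ∈ C := by
    apply bipolar h.closed h.convex h.zmem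
    intro y hy
    rw [hz'in, inv_mul_le_iff₀ hb, mul_one]
    exact hzle y hy
  have hz'm : inner ℝ z' m = 1 := by
    rw [hz'in, hmz, inv_mul_cancel₀ hb.ne']
  have hz'e : z' ≠ e := by
    intro h1
    have h2 : m0 ∈ ({m} : Set (Rn n)) := by
      rw [← hzeq]
      refine ⟨hm0, ?_⟩
      have h3 : inner ℝ z' m0 = 1 := by rw [h1, real_inner_comm]; exact hem0
      rw [hz'in, inv_mul_eq_iff_eq_mul₀ hb.ne', mul_one] at h3
      exact h3
    exact hmm0 h2.symm
  -- the new facet
  set G : Set (Rn n) := {x | x ∈ C ∧ inner ℝ m x = 1} with hG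
  have hGface : IsFace C G := level_face h.convex m (fun x hx => by
    rw [real_inner_comm]; exact hmD.1 x hx)
  have heG : e ∈ G := ⟨heCm, by rw [real_inner_comm]; exact hme⟩
  have hzG : z' ∈ G := ⟨hz'C, by rw [real_inner_comm]; exact hz'm⟩
  have hGC : G ≠ C := by
    intro h1
    have h2 := h.zmem
    rw [← h1] at h2
    have := h2.2
    simp at this
  have hdG : dim G = 2 := by
    rcases h.dims hGface ⟨e, heG⟩ with h1 | h1 | h1
    · exfalso
      have := eq_singleton_of_dim heG h1
      rw [this] at hzG
      exact hz'e hzG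
    · exact h1
    · exfalso
      exact hGC (same_dim hGface ⟨e, heG⟩ (by rw [h.dim_C, h1]))
  refine ⟨G, hGface, hdG, ?_, heG⟩
  intro hGF
  -- `m` and `m0` both expose `F`
  have hV : vectorSpan ℝ F ≤ (Submodule.span ℝ {m, m0})ᗮ := by
    rw [vectorSpan_def, Submodule.span_le]
    rintro _ ⟨x, hx, y, hy, rfl⟩
    have hx1 : inner ℝ m x = 1 := by
      have := hx; rw [← hGF] at this; exact this.2
    have hy1 : inner ℝ m y = 1 := by
      have := hy; rw [← hGF] at this; exact this.2
    have hx2 : inner ℝ m0 x = 1 := by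
      have := hx; rw [hFm] at this; exact this.2
    have hy2 : inner ℝ m0 y = 1 := by
      have := hy; rw [hFm] at this; exact this.2
    rw [SetLike.mem_coe, Submodule.mem_orthogonal]
    intro v hv
    rw [Submodule.mem_span_pair] at hv
    obtain ⟨a, b, rfl⟩ := hv
    change inner ℝ (a • m + b • m0) (x - y) = 0
    rw [inner_sub_right, inner_add_left, inner_add_left, inner_smul_left,
      inner_smul_left, inner_smul_left, inner_smul_left, hx1, hx2, hy1, hy2]
    ring
  have hlin : LinearIndependent ℝ ![m, m0] := by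
    rw [LinearIndependent.pair_iff]
    intro a b hab
    have h1 : a * inner ℝ m e + b * inner ℝ m0 e = 0 := by
      have : inner ℝ (a • m + b • m0) e = a * inner ℝ m e + b * inner ℝ m0 e := by
        rw [inner_add_left, inner_smul_left, inner_smul_left]; simp
      rw [← this, hab, inner_zero_left]
    rw [hem0, real_inner_comm, hme] at h1
    have h2 : a • (m - m0) = 0 := by
      have hb' : b = -a := by linarith
      rw [hb'] at hab
      rw [smul_sub]
      rw [neg_smul] at hab
      rw [sub_eq_add_neg]
      exact hab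
    rcases smul_eq_zero.mp h2 with h3 | h3
    · exact ⟨h3, by linarith⟩
    · exact absurd (sub_eq_zero.mp h3) hmm0
  have hfin : Module.finrank ℝ (Submodule.span ℝ {m, m0} : Submodule ℝ (Rn n)) = 2 := by
    have h1 := finrank_span_eq_card hlin
    have h2 : range ![m, m0] = {m, m0} := by
      simp [Matrix.range_cons, Matrix.range_empty, pair_comm]
    rw [h2] at h1
    simpa using h1
  have h5 := Submodule.finrank_add_finrank_orthogonal (Submodule.span ℝ {m, m0} : Submodule ℝ (Rn n))
  rw [hfin] at h5
  have h6 : Module.finrank ℝ (Rn n) = 3 := by simp [hn]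
  have h7 := Submodule.finrank_mono hV
  unfold dim at hd
  omega

/-- facets are countably many -/
lemma Hyp.countable_facets : {G : Set (Rn n) | IsFace C G ∧ dim G = 2}.Countable := by
  have hn := h.n_eq
  let K : Set (Rn n) → Set (Rn n) := fun G => {x | ∃ t : ℝ, 0 < t ∧ t • x ∈ G}
  apply PairwiseDisjoint.countable_of_isOpen (s := fun G => interior (K G))
  · -- disjointness
    rintro F ⟨hF, hdF⟩ G ⟨hG, hdG⟩ hne
    rw [Function.onFun, disjoint_left]
    intro x hx hx'
    obtain ⟨mF, hmF, hFm⟩ := exposing h.zero (h.exp F hF (facet_nonempty hdF) (h.facet_ne hdF))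
    obtain ⟨mG, hmG, hGm⟩ := exposing h.zero (h.exp G hG (facet_nonempty hdG) (h.facet_ne hdG))
    have hsub : ∀ w, w ∈ K F → w ∈ K G → ∃ t : ℝ, 0 < t ∧ t • w ∈ F ∩ G := by
      rintro w ⟨t, ht, htF⟩ ⟨s, hs, hsG⟩
      have h1 : t * inner ℝ mF w = 1 := by
        have h2 := htF
        rw [hFm] at h2
        have := h2.2
        rwa [inner_smul_right] at this
      have h2 : s * inner ℝ mG w = 1 := by
        have h2 := hsG
        rw [hGm] at h2
        have := h2.2
        rwa [inner_smul_right] at this
      have h3 : s * inner ℝ mF w ≤ 1 := by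
        have := hmF _ (hG.1 hsG)
        rwa [real_inner_comm, inner_smul_right] at this
      have h4 : t * inner ℝ mG w ≤ 1 := by
        have := hmG _ (hF.1 htF)
        rwa [real_inner_comm, inner_smul_right] at this
      have h5 : 0 < inner ℝ mF w := by
        by_contra hcon
        push Not at hcon
        nlinarith
      have h6 : 0 < inner ℝ mG w := by
        by_contra hcon
        push Not at hcon
        nlinarith
      have h7 : s ≤ t := by
        by_contra hcon
        push Not at hcon
        nlinarith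
      have h8 : t ≤ s := by
        by_contra hcon
        push Not at hcon
        nlinarith
      have h9 : t = s := le_antisymm h8 h7
      exact ⟨t, ht, htF, by rw [h9]; exact hsG⟩
    obtain ⟨t, ht, hxI⟩ := hsub x (interior_subset hx) (interior_subset hx')
    have hI := h.inter_facets hF hG hdF hdG hne hxI
    have h10 : (interior (Submodule.span ℝ {t • x} : Set (Rn n))).Nonempty := by
      refine ⟨x, ?_⟩
      have h11 : x ∈ interior (K F ∩ K G) := by
        rw [interior_inter]; exact ⟨hx, hx'⟩
      refine interior_mono ?_ h11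
      rintro w ⟨hwF, hwG⟩
      obtain ⟨s, hs, hsI⟩ := hsub w hwF hwG
      rw [hI, mem_singleton_iff] at hsI
      rw [SetLike.mem_coe, Submodule.mem_span_singleton]
      exact ⟨s⁻¹, by rw [← hsI, smul_smul, inv_mul_cancel₀ hs.ne', one_smul]⟩
    have h12 := Submodule.eq_top_of_nonempty_interior' _ h10
    have h13 : Module.finrank ℝ (Submodule.span ℝ {t • x} : Submodule ℝ (Rn n)) ≤ 1 := by
      have := finrank_span_le_card (R := ℝ) ({t • x} : Set (Rn n))
      simpa using this
    rw [h12, finrank_top] at h13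
    simp [hn] at h13
  · intro G _
    exact isOpen_interior
  · -- nonempty interior
    rintro G ⟨hG, hdG⟩
    obtain ⟨m, hm, hGm⟩ := exposing h.zero (h.exp G hG (facet_nonempty hdG) (h.facet_ne hdG))
    obtain ⟨p, hp, ε, hε, hball⟩ := relint hG.2.1 (facet_nonempty hdG)
    have hmp : inner ℝ m p = 1 := by
      have := hp; rw [hGm] at this; exact this.2
    have hm0 : m ≠ 0 := by
      rintro rfl
      simp at hmp
    have hVle : vectorSpan ℝ G ≤ (Submodule.span ℝ {m})ᗮ := by
      rw [vectorSpan_def, Submodule.span_le]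
      rintro _ ⟨x, hx, y, hy, rfl⟩
      have hx1 : inner ℝ m x = 1 := by
        have := hx; rw [hGm] at this; exact this.2
      have hy1 : inner ℝ m y = 1 := by
        have := hy; rw [hGm] at this; exact this.2
      rw [SetLike.mem_coe, Submodule.mem_orthogonal_singleton_iff_inner_right]
      change inner ℝ m (x - y) = 0
      rw [inner_sub_right, hx1, hy1, sub_self]
    have hVeq : vectorSpan ℝ G = (Submodule.span ℝ {m})ᗮ := by
      apply Submodule.eq_of_le_of_finrank_eq hVle
      have h1 := Submodule.finrank_add_finrank_orthogonal (Submodule.span ℝ {m} : Submodule ℝ (Rn n))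
      rw [finrank_span_singleton hm0] at h1
      have h2 : Module.finrank ℝ (Rn n) = 3 := by simp [hn]
      unfold dim at hdG
      omega
    refine ⟨p, ?_⟩
    rw [mem_interior_iff_mem_nhds]
    have hc1 : ContinuousAt (fun x : Rn n => ‖(inner ℝ m x : ℝ)⁻¹ • x - p‖) p := by
      apply ContinuousAt.norm
      apply ContinuousAt.sub _ continuousAt_const
      have h1 : ContinuousAt (fun x : Rn n => (inner ℝ m x : ℝ)⁻¹) p := by
        apply ContinuousAt.inv₀ (by fun_prop)
        rw [hmp]; norm_num
      exact h1.fun_smul continuousAt_id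
    have hc2 : ContinuousAt (fun x : Rn n => (inner ℝ m x : ℝ)) p := by fun_prop
    have e1 : ∀ᶠ x in 𝓝 p, ‖(inner ℝ m x : ℝ)⁻¹ • x - p‖ < ε := by
      have h1 := hc1.tendsto
      simp only [hmp, inv_one, one_smul, sub_self, norm_zero] at h1
      exact h1.eventually (gt_mem_nhds hε)
    have e2 : ∀ᶠ x in 𝓝 p, 0 < (inner ℝ m x : ℝ) := by
      have h1 := hc2.tendsto
      rw [hmp] at h1
      exact h1.eventually (lt_mem_nhds one_pos)
    filter_upwards [e1, e2] with x hx1 hx2
    refine ⟨(inner ℝ m x)⁻¹, by positivity, ?_⟩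
    have h3 : (inner ℝ m x : ℝ)⁻¹ • x - p ∈ vectorSpan ℝ G := by
      rw [hVeq, Submodule.mem_orthogonal_singleton_iff_inner_right, inner_sub_right,
        inner_smul_right, hmp, inv_mul_cancel₀ hx2.ne', sub_self]
    have h4 := hball _ h3 hx1
    rwa [add_sub_cancel] at h4

end

end V11196.FS
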