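import Pool.Agent.V11196.FS.Spec

/-! The polar of `S`, and its faces. -/

open Set Filter Topology

namespace V11196.FS

noncomputable section

variable {n : ℕ}

/-- the explicit polar -/
def P (n k : ℕ) : Set (Rn n) :=
  {y | (∀ i : Fin n, (i : ℕ) < k → y i = 0) ∧ ‖y‖ ≤ 1 + 2 * ∑ i, y i}

lemma norm_sq_eq (y : Rn n) : ‖y‖ ^ 2 = ∑ i, y i ^ 2 := by
  rw [EuclideanSpace.norm_sq_eq]
  simp

/-- a unit vector in one of the removed caps has large coordinate sum -/
lemma cap_visible {k : ℕ} (u : Rn n) (hk : ∀ i : Fin n, (i : ℕ) < k → u i = 0) (hu : ‖u‖ = 1)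
    (b : Fin n) (hkb : k < (b : ℕ)) (hq : 1 - dl n < qa b (pt u)) : 1 < 2 * ∑ i, u i := by
  have hn : (0:ℝ) ≤ n := Nat.cast_nonneg n
  have hs : ∑ i, u i ^ 2 = 1 := by rw [← norm_sq_eq, hu]; norm_num
  have hQ : Q k (pt u) ≤ 1 := by
    rw [Q_pt, ← hs]
    apply Finset.sum_le_sum
    intro i _
    split_ifs
    · exact le_rfl
    · positivity
  have h1 := cap_coord hkb.le hQ hq.le
  rw [pt_apply] at h1
  have h2 : ∑ i ∈ Finset.univ.erase b, u i ^ 2 = 1 - u b ^ 2 := by
    rw [← hs, ← Finset.add_sum_erase Finset.univ _ (Finset.mem_univ b)]; ring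
  have h3 : ∑ i, u i = u b + ∑ i ∈ Finset.univ.erase b, u i :=
    (Finset.add_sum_erase Finset.univ _ (Finset.mem_univ b)).symm
  have h4 : (∑ i ∈ Finset.univ.erase b, u i) ^ 2 ≤
      (Finset.univ.erase b).card * ∑ i ∈ Finset.univ.erase b, u i ^ 2 := sq_sum_le_card_mul_sum_sq
  have h5 : ((Finset.univ.erase b).card : ℝ) ≤ n := by
    rw [Finset.card_erase_of_mem (Finset.mem_univ b), Finset.card_univ, Fintype.card_fin]
    exact_mod_cast Nat.sub_le n 1
  have hd0 := dl_pos n
  have hd1 := dl_le n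
  have h6 : 1 - u b ^ 2 ≤ 4 * dl n := by nlinarith
  have h7 : 0 ≤ 1 - u b ^ 2 := by
    rw [← h2]; exact Finset.sum_nonneg fun i _ => by positivity
  have h8 : (∑ i ∈ Finset.univ.erase b, u i) ^ 2 ≤ n * (4 * dl n) := by
    rw [h2] at h4
    exact h4.trans (mul_le_mul h5 h6 h7 hn)
  have h9 : (n:ℝ) * (4 * dl n) ≤ (1 / 4) ^ 2 := by
    unfold dl
    rw [show (n:ℝ) * (4 * (1 / (64 * ((n:ℝ) + 1)))) = (n / ((n:ℝ) + 1)) * (1 / 16) by
      field_simp; ring]
    have : (n:ℝ) / ((n:ℝ) + 1) ≤ 1 := by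
      rw [div_le_one (by linarith)]; linarith
    nlinarith
  have h10 : -(1 / 4) ≤ ∑ i ∈ Finset.univ.erase b, u i := by
    have := abs_le_of_sq_le_sq' (h8.trans h9) (by norm_num)
    exact this.1
  rw [h3]
  linarith

lemma polar_S (I : Finset ℕ) (k : ℕ) : polar (S (n := n) I k) = P n k := by
  have hd0 := dl_pos n
  have hd1 := dl_le n
  ext y
  constructor
  · intro hy
    have h0 : ∀ i : Fin n, (i : ℕ) < k → y i = 0 := by
      intro i hi
      by_contra hne
      -- move along `e_i`
      set s : Fin n → ℝ := fun j => if j = i then (2 + 2 * ∑ l, y l - 2 * y i) / y i + 2 else 0 with hs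
      have hmem : pt s ∈ S (n := n) I k := by
        have hQs : ∀ p : ℕ, k ≤ p → Q p (pt s) = 0 := by
          intro p hp
          rw [Q_pt]
          apply Finset.sum_eq_zero
          intro j _
          split_ifs with hj
          · have : j ≠ i := by rintro rfl; omega
            simp [hs, this]
          · rfl
        refine ⟨by rw [hQs k le_rfl]; norm_num, ?_⟩
        intro b _ hb
        unfold qa
        rw [hQs _ (by omega), pt_apply]
        have : b ≠ i := by rintro rfl; omega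
        simp only [hs, this, if_false]
        linarith
      have h1 := hy _ hmem
      rw [inner_eq] at h1
      have h2 : ∀ j, (pt s) j * y j = s j * y j - 2 * y j := by
        intro j
        have := pt_apply s j
        have h3 : (pt s) j = s j - 2 := by linarith
        rw [h3]; ring
      simp_rw [h2] at h1
      rw [Finset.sum_sub_distrib, ← Finset.mul_sum, Finset.sum_eq_single i] at h1
      · simp only [hs, if_true] at h1
        rw [add_mul, div_mul_cancel₀ _ hne] at h1
        linarith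
      · intro j _ hj
        simp [hs, hj]
      · intro h
        exact absurd (Finset.mem_univ i) h
    refine ⟨h0, ?_⟩
    by_cases hy0 : y = 0
    · rw [hy0]; simp
    · have hny : 0 < ‖y‖ := norm_pos_iff.mpr hy0
      set u : Rn n := ‖y‖⁻¹ • y with hu
      have hun : ‖u‖ = 1 := by
        rw [hu, norm_smul, norm_inv, norm_norm, inv_mul_cancel₀ hny.ne']
      have hui : ∀ i, u i = ‖y‖⁻¹ * y i := fun i => by simp [hu]
      have huk : ∀ i : Fin n, (i : ℕ) < k → u i = 0 := fun i hi => by rw [hui, h0 i hi, mul_zero]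
      have hyu : ∀ i, y i = ‖y‖ * u i := fun i => by
        rw [hui, ← mul_assoc, mul_inv_cancel₀ hny.ne', one_mul]
      have hs : ∑ i, u i ^ 2 = 1 := by rw [← norm_sq_eq, hun]; norm_num
      by_cases hmem : pt u ∈ S (n := n) I k
      · have h1 := hy _ hmem
        rw [inner_eq] at h1
        have h2 : ∀ j, (pt u) j * y j = ‖y‖ * u j ^ 2 - 2 * y j := by
          intro j
          have := pt_apply u j
          have h3 : (pt u) j = u j - 2 := by linarith
          rw [h3, sub_mul]
          nth_rewrite 1 [hyu j]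
          ring
        simp_rw [h2] at h1
        rw [Finset.sum_sub_distrib, ← Finset.mul_sum, ← Finset.mul_sum, hs] at h1
        linarith
      · have hQ : Q k (pt u) ≤ 1 := by
          rw [Q_pt, ← hs]
          apply Finset.sum_le_sum
          intro i _
          split_ifs
          · exact le_rfl
          · positivity
        have h3 : ∃ b : Fin n, (b : ℕ) ∈ I ∧ k < (b : ℕ) ∧ 1 - dl n < qa b (pt u) := by
          by_contra hcon
          push Not at hcon
          exact hmem ⟨hQ, hcon⟩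
        obtain ⟨b, _, hkb, hqb⟩ := h3
        have h4 := cap_visible u huk hun b hkb hqb
        have h5 : ∑ i, y i = ‖y‖ * ∑ i, u i := by
          rw [Finset.mul_sum]
          exact Finset.sum_congr rfl fun i _ => hyu i
        rw [h5]
        nlinarith
  · rintro ⟨h0, hy⟩ x hx
    rw [inner_eq]
    have h1 : ∑ i, x i * y i = (∑ i : Fin n, (if k ≤ (i : ℕ) then (x i + 2) else 0) * y i)
        - 2 * ∑ i, y i := by
      rw [Finset.mul_sum, ← Finset.sum_sub_distrib]
      apply Finset.sum_congr rfl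
      intro i _
      split_ifs with hi
      · ring
      · rw [h0 i (not_le.mp hi)]; ring
    rw [h1]
    have h2 : (∑ i : Fin n, (if k ≤ (i : ℕ) then (x i + 2) else 0) * y i) ^ 2 ≤
        (∑ i : Fin n, (if k ≤ (i : ℕ) then (x i + 2) else 0) ^ 2) * ∑ i, y i ^ 2 :=
      Finset.sum_mul_sq_le_sq_mul_sq _ _ _
    have h3 : (∑ i : Fin n, (if k ≤ (i : ℕ) then (x i + 2) else 0) ^ 2) = Q k x := by
      unfold Q
      apply Finset.sum_congr rfl
      intro i _
      split_ifs <;> simp
    rw [h3, ← norm_sq_eq] at h2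
    have h4 : (∑ i : Fin n, (if k ≤ (i : ℕ) then (x i + 2) else 0) * y i) ^ 2 ≤ ‖y‖ ^ 2 := by
      have := hx.1
      have h5 : 0 ≤ ‖y‖ ^ 2 := by positivity
      nlinarith
    have h6 := (abs_le_of_sq_le_sq' h4 (norm_nonneg y)).2
    linarith

/-- linear functional `y ↦ ∑ y i` -/
lemma sum_add_smul (x y : Rn n) (α β : ℝ) :
    ∑ i, (α • x + β • y) i = α * ∑ i, x i + β * ∑ i, y i := by
  simp only [PiLp.add_apply, PiLp.smul_apply, smul_eq_mul]
  rw [Finset.sum_add_distrib, Finset.mul_sum, Finset.mul_sum]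

lemma facially_exposed_P (k : ℕ) : FaciallyExposed (P n k) := by
  intro F hF hne hFP
  obtain ⟨z, hzF⟩ := hne
  have hFsub := hF.1
  -- no point of `F` is interior
  have hb : ∀ w ∈ F, ‖w‖ = 1 + 2 * ∑ i, w i := by
    by_contra hcon
    push Not at hcon
    obtain ⟨w, hwF, hw⟩ := hcon
    have hwP := hFsub hwF
    have hlt : ‖w‖ < 1 + 2 * ∑ i, w i := lt_of_le_of_ne hwP.2 hw
    apply hFP
    apply Subset.antisymm hFsub
    intro f hf
    have hc : Continuous fun t : ℝ => 1 + 2 * (∑ i, (w + t • (w - f)) i) - ‖w + t • (w - f)‖ := by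
      fun_prop
    have hev : ∀ᶠ t in 𝓝 (0:ℝ), 0 < 1 + 2 * (∑ i, (w + t • (w - f)) i) - ‖w + t • (w - f)‖ := by
      have := hc.tendsto 0
      simp only [zero_smul, add_zero] at this
      exact this.eventually (lt_mem_nhds (by linarith))
    obtain ⟨ε, hε, hball⟩ := Metric.eventually_nhds_iff.mp hev
    have h1 := hball (y := ε / 2) (by
      rw [dist_zero_right, Real.norm_eq_abs, abs_of_pos (by positivity)]; linarith)
    have h2 : w + (ε / 2) • (w - f) ∈ P n k := by
      refine ⟨?_, by linarith⟩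
      intro i hi
      simp [hwP.1 i hi, hf.1 i hi]
    have h3 : w ∈ openSegment ℝ f (w + (ε / 2) • (w - f)) := by
      refine ⟨(ε / 2) / (1 + ε / 2), 1 / (1 + ε / 2), by positivity, by positivity,
        by field_simp; ring, ?_⟩
      ext i
      simp only [PiLp.add_apply, PiLp.smul_apply, PiLp.sub_apply, smul_eq_mul]
      field_simp
      ring
    exact (hF.2.2 f hf _ h2 ⟨w, h3, hwF⟩).1
  have hz0 : z ≠ 0 := by
    rintro rfl
    have := hb 0 hzF
    simp at this
  have hnz : 0 < ‖z‖ := norm_pos_iff.mpr hz0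
  -- `F = {z}`
  have hkey : ∀ f : Rn n, ‖f‖ = 1 + 2 * ∑ i, f i → SameRay ℝ z f → f = z := by
    intro f hf hray
    have hf0 : f ≠ 0 := by
      rintro rfl
      simp at hf
    obtain ⟨c, hc, hcf⟩ := hray.exists_nonneg_left hz0
    have h1 : f = c • z := hcf.symm
    have h2 : ‖f‖ = c * ‖z‖ := by rw [h1, norm_smul, Real.norm_eq_abs, abs_of_nonneg hc]
    have h3 : ∑ i, f i = c * ∑ i, z i := by
      rw [h1]
      simp only [PiLp.smul_apply, smul_eq_mul]
      rw [Finset.mul_sum]
    have hz1 := hb z hzF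
    rw [h2, h3] at hf
    have h4 : c = 1 := by
      have : c * (1 + 2 * ∑ i, z i) = 1 + 2 * (c * ∑ i, z i) := by rw [← hz1]; exact hf
      linarith
    rw [h1, h4, one_smul]
  have hFz : F = {z} := by
    apply Subset.antisymm
    · intro f hf
      rw [mem_singleton_iff]
      have hm : ((1 / 2 : ℝ) • z + (1 / 2 : ℝ) • f) ∈ F :=
        hF.2.1 hzF hf (by norm_num) (by norm_num) (by norm_num)
      have h1 := hb _ hm
      rw [sum_add_smul] at h1
      have h2 := hb z hzF
      have h3 := hb f hf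
      have h4 : ‖z + f‖ = ‖z‖ + ‖f‖ := by
        have h5 : ‖(1 / 2 : ℝ) • z + (1 / 2 : ℝ) • f‖ = 1 / 2 * ‖z + f‖ := by
          rw [← smul_add, norm_smul]; norm_num
        rw [h5] at h1
        linarith
      exact hkey f h3 (sameRay_iff_norm_add.mpr h4)
    · rw [singleton_subset_iff]; exact hzF
  rw [hFz]
  -- the exposing functional
  set g : Rn n := ‖z‖⁻¹ • z - WithLp.toLp 2 (fun _ : Fin n => (2:ℝ)) with hg
  have hin : ∀ y : Rn n, inner ℝ g y = ‖z‖⁻¹ * inner ℝ z y - 2 * ∑ i, y i := by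
    intro y
    rw [inner_eq, inner_eq, Finset.mul_sum, Finset.mul_sum, ← Finset.sum_sub_distrib]
    apply Finset.sum_congr rfl
    intro i _
    simp only [hg, PiLp.sub_apply, PiLp.smul_apply, smul_eq_mul]
    ring
  have hgz : inner ℝ g z = 1 := by
    rw [hin, real_inner_self_eq_norm_sq]
    have := hb z hzF
    have h1 : ‖z‖⁻¹ * ‖z‖ ^ 2 = ‖z‖ := by field_simp
    rw [h1]; linarith
  refine ⟨g, 1, ?_, ?_, ?_⟩
  · intro h0
    rw [h0] at hgz
    simp at hgz
  · intro y hy
    rw [hin]
    have h1 := real_inner_le_norm z y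
    have h2 : ‖z‖⁻¹ * inner ℝ z y ≤ ‖y‖ := by
      rw [inv_mul_le_iff₀ hnz]; exact h1
    have := hy.2
    linarith
  · ext y
    constructor
    · rintro ⟨hyP, hy⟩
      rw [mem_singleton_iff]
      rw [hin] at hy
      have h1 := real_inner_le_norm z y
      have h2 : ‖z‖⁻¹ * inner ℝ z y ≤ ‖y‖ := by
        rw [inv_mul_le_iff₀ hnz]; exact h1
      have h3 := hyP.2
      have h4 : ‖z‖⁻¹ * inner ℝ z y = ‖y‖ := by linarith
      have h5 : ‖y‖ = 1 + 2 * ∑ i, y i := by linarith
      have h6 : inner ℝ z y = ‖z‖ * ‖y‖ := by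
        rw [← h4]; field_simp
      have h7 : SameRay ℝ z y := by
        rw [sameRay_iff_norm_add]
        have h8 : ‖z + y‖ ^ 2 = (‖z‖ + ‖y‖) ^ 2 := by
          rw [norm_add_sq_real, h6]; ring
        exact (sq_eq_sq₀ (norm_nonneg _) (by positivity)).mp h8
      exact hkey y h5 h7
    · rintro rfl
      exact ⟨hFsub hzF, hgz⟩

end

end V11196.FS
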