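import Pool.Agent.V11196.FS.Body

/-! Dimensions of the faces, exposedness, and the signature. -/

open Set Filter Topology

namespace V11196.FS

noncomputable section

variable {n : ℕ}

/-- vectors supported on the first `a` coordinates -/
def W (n a : ℕ) : Submodule ℝ (Rn n) where
  carrier := {v | ∀ i : Fin n, a ≤ (i : ℕ) → v i = 0}
  add_mem' := by
    intro x y hx hy i hi
    simp [hx i hi, hy i hi]
  zero_mem' := by
    intro i _
    simp
  smul_mem' := by
    intro c x hx i hi
    simp [hx i hi]

/-- inclusion of `ℝᵃ` -/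
def incl (n a : ℕ) : (Fin a → ℝ) →ₗ[ℝ] Rn n where
  toFun f := WithLp.toLp 2 fun i : Fin n => if h : (i : ℕ) < a then f ⟨i, h⟩ else 0
  map_add' := by
    intro f g
    ext i
    simp only [PiLp.add_apply]
    split_ifs <;> simp
  map_smul' := by
    intro c f
    ext i
    simp only [PiLp.smul_apply, RingHom.id_apply]
    split_ifs <;> simp

lemma finrank_W {a : ℕ} (ha : a ≤ n) : Module.finrank ℝ (W n a) = a := by
  have h1 : LinearMap.range (incl n a) = W n a := by
    ext v
    constructor
    · rintro ⟨f, rfl⟩ i hi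
      simp [incl, not_lt.mpr hi]
    · intro hv
      refine ⟨fun j => v ⟨j, lt_of_lt_of_le j.2 ha⟩, ?_⟩
      ext i
      by_cases h : (i : ℕ) < a
      · simp [incl, h]
      · simp only [incl, LinearMap.coe_mk, AddHom.coe_mk, h, dite_false]
        exact (hv i (not_lt.mp h)).symm
  rw [← h1, LinearMap.finrank_range_of_inj]
  · simp
  · intro f g hfg
    ext j
    have := congrArg (fun v : Rn n => v ⟨j, lt_of_lt_of_le j.2 ha⟩) hfg
    simpa [incl] using this

lemma vectorSpan_Fz {I : Finset ℕ} {k a : ℕ} {z : Rn n} (hz : Good I k a z) :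
    vectorSpan ℝ (Fz I k a z) = W n a := by
  apply le_antisymm
  · rw [vectorSpan_def, Submodule.span_le]
    rintro _ ⟨x, hx, y, hy, rfl⟩ i hi
    simp only [vsub_eq_sub, PiLp.sub_apply]
    rw [hx.2 i hi, hy.2 i hi, sub_self]
  · intro v hv
    obtain ⟨ε, hε, h1, -⟩ := perturb hz v hv
    have h2 : z + ε • v ∈ Fz I k a z := ⟨h1, fun i hi => by simp [hv i hi]⟩
    have h3 : z ∈ Fz I k a z := ⟨hz.1, fun i _ => rfl⟩
    have h4 := vsub_mem_vectorSpan ℝ h2 h3
    simp only [vsub_eq_sub, add_sub_cancel_left] at h4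
    have h5 := Submodule.smul_mem _ ε⁻¹ h4
    rwa [smul_smul, inv_mul_cancel₀ hε.ne', one_smul] at h5

lemma dim_Fz {I : Finset ℕ} {k a : ℕ} {z : Rn n} (hz : Good I k a z) (ha : a ≤ n) :
    dim (Fz I k a z) = a := by
  unfold dim
  rw [vectorSpan_Fz hz, finrank_W ha]

lemma Fz_nonempty {I : Finset ℕ} {k a : ℕ} {z : Rn n} (hz : Good I k a z) :
    (Fz I k a z).Nonempty := ⟨z, hz.1, fun _ _ => rfl⟩

/-- the point with shifted coordinates `s` -/
def pt (s : Fin n → ℝ) : Rn n := WithLp.toLp 2 fun i => s i - 2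

lemma pt_apply (s : Fin n → ℝ) (i : Fin n) : (pt s) i + 2 = s i := by
  simp [pt]

lemma Q_pt (p : ℕ) (s : Fin n → ℝ) : Q p (pt s) = ∑ i : Fin n, if p ≤ (i : ℕ) then s i ^ 2 else 0 := by
  unfold Q
  simp_rw [pt_apply]

lemma Q_pt_single (p : ℕ) (c : ℝ) (a : Fin n) :
    Q p (pt (fun i => if i = a then c else 0)) = if p ≤ (a : ℕ) then c ^ 2 else 0 := by
  rw [Q_pt, Finset.sum_eq_single a]
  · simp
  · intro b _ hb
    simp [hb]
  · intro h
    exact absurd (Finset.mem_univ a) h

/-- existence of good points of every type -/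
lemma exists_good (I : Finset ℕ) {k : ℕ} (hkn : k ≤ n) {a : ℕ} (ha : a ∈ I ∨ a = k ∨ a = n)
    (hka : k ≤ a) (han : a ≤ n) : ∃ z : Rn n, Good I k a z := by
  have hd0 := dl_pos n
  have hd1 := dl_le n
  rcases Nat.eq_or_lt_of_le han with h | h
  · -- a = n : centre
    refine ⟨pt (fun _ => 0), ⟨?_, ?_⟩, Or.inl ⟨h, ?_, ?_⟩⟩
    · rw [Q_pt]; simp
    · intro b _ _
      unfold qa
      rw [Q_pt, pt_apply]
      simp
      linarith
    · rw [Q_pt]; simp
    · intro b _ _
      unfold qa
      rw [Q_pt, pt_apply]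
      simp
      linarith
  · rcases Nat.eq_or_lt_of_le hka with h2 | h2
    · -- a = k < n
      subst h2
      have hq : ∀ b : Fin n, k < (b : ℕ) →
          qa b (pt (fun i => if i = ⟨k, h⟩ then (-1:ℝ) else 0)) ≤ 1 - dl n := by
        intro b hb
        unfold qa
        rw [Q_pt_single, pt_apply, if_neg, if_neg]
        · linarith
        · simp; omega
        · intro hbk
          rw [hbk] at hb
          simp at hb
      refine ⟨pt (fun i => if i = ⟨k, h⟩ then (-1:ℝ) else 0), ⟨?_, ?_⟩,
        Or.inr (Or.inl ⟨rfl, h, ?_⟩)⟩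
      · rw [Q_pt_single]; simp
      · exact fun b _ hb => hq b hb
      · rw [Q_pt_single]; simp
    · -- k < a < n, a ∈ I
      have haI : a ∈ I := by
        rcases ha with h3 | h3 | h3
        · exact h3
        · omega
        · omega
      set z : Rn n := pt (fun i => if i = ⟨a, h⟩ then (1 - dl n : ℝ) else 0) with hz
      have hQz : Q k z < 1 := by
        rw [hz, Q_pt_single]
        simp only [hka, if_true]
        nlinarith
      have hqa : qa ⟨a, h⟩ z = 1 - dl n := by
        unfold qa
        rw [hz, Q_pt_single, pt_apply]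
        simp
      have hq : ∀ b : Fin n, k < (b : ℕ) → qa b z ≤ 1 - dl n := by
        intro b hb
        by_cases hba : b = ⟨a, h⟩
        · rw [hba, hqa]
        · unfold qa
          rw [hz, Q_pt_single, pt_apply, if_neg hba]
          split_ifs <;> nlinarith
      exact ⟨z, ⟨hQz.le, fun b _ hb => hq b hb⟩,
        Or.inr (Or.inr ⟨haI, h2, hQz, ⟨a, h⟩, rfl, hqa⟩)⟩

lemma signature_S (I : Finset ℕ) (hI : I.Nonempty) :
    signature (S (n := I.max' hI) I (I.min' hI)) = (I : Set ℕ) := by
  have hkn : I.min' hI ≤ I.max' hI := I.min'_le _ (I.max'_mem hI)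
  ext m
  constructor
  · rintro ⟨F, hF, hne, rfl⟩
    obtain ⟨a, z, hgood, hFz, ha, han⟩ := good_of_face hkn hF hne
    rw [hFz, dim_Fz hgood han]
    rcases ha with rfl | rfl | h
    · exact I.max'_mem hI
    · exact I.min'_mem hI
    · exact h
  · intro hm
    have hm' : m ∈ I := hm
    have h1 : m ≤ I.max' hI := I.le_max' m hm'
    have h2 : I.min' hI ≤ m := I.min'_le m hm'
    obtain ⟨z, hz⟩ := exists_good I hkn (Or.inl hm') h2 h1
    exact ⟨_, Fz_isFace hz, Fz_nonempty hz, dim_Fz hz h1⟩

lemma inner_eq (x y : Rn n) : inner ℝ x y = ∑ i, x i * y i := by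
  rw [PiLp.inner_apply]
  apply Finset.sum_congr rfl
  intro i _
  simp [mul_comm]

lemma Q_expand (p : ℕ) (z f : Rn n) :
    Q p f = Q p z + 2 * (∑ i : Fin n, (if p ≤ (i : ℕ) then (z i + 2) else 0) * (f i - z i))
      + D p f z := by
  unfold Q D
  rw [Finset.mul_sum, ← Finset.sum_add_distrib, ← Finset.sum_add_distrib]
  apply Finset.sum_congr rfl
  intro i _
  split_ifs <;> ring

lemma exposed_Fz {I : Finset ℕ} {k a : ℕ} {z : Rn n} (hz : Good I k a z) (han : a < n ∨ True)
    (hne : Fz I k a z ≠ S I k) : IsExposed (S I k) (Fz I k a z) := by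
  obtain ⟨hzS, hz⟩ := hz
  rcases hz with ⟨rfl, _, _⟩ | ⟨rfl, hkn, h⟩ | ⟨haI, hka, hQ, c, hca, hqc⟩
  · exfalso
    apply hne
    apply Subset.antisymm
    · exact fun f hf => hf.1
    · exact fun f hf => ⟨hf, fun i hi => absurd i.2 (by omega)⟩
  · -- the ball
    set g : Rn n := WithLp.toLp 2 fun i : Fin n => if a ≤ (i : ℕ) then (z i + 2) else 0 with hg
    have hgi : ∀ i, g i = if a ≤ (i : ℕ) then (z i + 2) else 0 := fun i => rfl
    have key : ∀ f : Rn n, inner ℝ g f - inner ℝ g z = 1 / 2 * (Q a f - Q a z - D a f z) := by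
      intro f
      rw [inner_eq, inner_eq, ← Finset.sum_sub_distrib, Q_expand a z f]
      simp_rw [hgi, ← mul_sub]
      ring
    refine ⟨g, inner ℝ g z, ?_, ?_, ?_⟩
    · intro h0
      have : Q a z = 0 := by
        unfold Q
        apply Finset.sum_eq_zero
        intro i _
        by_cases hi : a ≤ (i : ℕ)
        · have h1 := hgi i
          rw [h0, if_pos hi] at h1
          rw [if_pos hi, ← h1]
          simp
        · rw [if_neg hi]
      rw [this] at h
      norm_num at h
    · intro f hf
      have h1 := key f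
      have h2 := hf.1
      have h3 := D_nonneg a f z
      rw [h] at h1
      linarith
    · ext f
      constructor
      · rintro ⟨hfS, hf⟩
        have h1 := key f
        rw [hf, h] at h1
        have h2 := hfS.1
        exact ⟨hfS, fun i hi => D_eq_zero (by linarith) i hi⟩
      · rintro ⟨hfS, hf⟩
        refine ⟨hfS, ?_⟩
        rw [inner_eq, inner_eq]
        apply Finset.sum_congr rfl
        intro i _
        by_cases hi : a ≤ (i : ℕ)
        · rw [hf i hi]
        · rw [hgi, if_neg hi]; ring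
  · -- a parabolic cylinder
    set g : Rn n := WithLp.toLp 2 fun i : Fin n =>
      (if i = c then 1 else 0) + 1 / 2 * (if (c : ℕ) + 1 ≤ (i : ℕ) then (z i + 2) else 0) with hg
    have hgi : ∀ i, g i = (if i = c then 1 else 0) +
      1 / 2 * (if (c : ℕ) + 1 ≤ (i : ℕ) then (z i + 2) else 0) := fun i => rfl
    have key : ∀ f : Rn n, inner ℝ g f - inner ℝ g z
        = qa c f - qa c z - 1 / 4 * D ((c : ℕ) + 1) f z := by
      intro f
      unfold qa
      rw [inner_eq, inner_eq, ← Finset.sum_sub_distrib, Q_expand ((c : ℕ) + 1) z f]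
      have h1 : ∀ i, g i * f i - g i * z i = (if i = c then (f i - z i) else 0) + 1 / 2 *
          ((if (c : ℕ) + 1 ≤ (i : ℕ) then (z i + 2) else 0) * (f i - z i)) := by
        intro i
        rw [hgi]
        split_ifs <;> ring
      simp_rw [h1]
      rw [Finset.sum_add_distrib, ← Finset.mul_sum, Finset.sum_ite_eq' Finset.univ c]
      simp only [Finset.mem_univ, if_true]
      ring
    refine ⟨g, inner ℝ g z, ?_, ?_, ?_⟩
    · intro h0
      have := hgi c
      rw [h0] at this
      simp at this
    · intro f hf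
      have h1 := key f
      have h2 := hf.2 c (by rw [hca]; exact haI) (by omega)
      have h3 := D_nonneg ((c : ℕ) + 1) f z
      linarith
    · ext f
      constructor
      · rintro ⟨hfS, hf⟩
        have h1 := key f
        have h2 := hfS.2 c (by rw [hca]; exact haI) (by omega)
        have h3 := D_nonneg ((c : ℕ) + 1) f z
        have hD0 : D ((c : ℕ) + 1) f z ≤ 0 := by linarith
        have h5 : ∀ i : Fin n, (c : ℕ) + 1 ≤ (i : ℕ) → f i = z i := fun i hi => D_eq_zero hD0 i hi
        have h7 : Q ((c : ℕ) + 1) f = Q ((c : ℕ) + 1) z := Q_congr h5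
        have h9 : f c = z c := by
          have h10 : qa c f = qa c z := by linarith
          unfold qa at h10
          linarith
        refine ⟨hfS, fun i hi => ?_⟩
        rcases Nat.eq_or_lt_of_le hi with h | h
        · have : i = c := Fin.ext (by omega)
          rw [this, h9]
        · exact h5 i (by omega)
      · rintro ⟨hfS, hf⟩
        refine ⟨hfS, ?_⟩
        rw [inner_eq, inner_eq]
        apply Finset.sum_congr rfl
        intro i _
        by_cases hi : a ≤ (i : ℕ)
        · rw [hf i hi]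
        · rw [hgi, if_neg (by rintro rfl; omega), if_neg (by omega)]; ring

lemma facially_exposed_S (I : Finset ℕ) {k : ℕ} (hkn : k ≤ n) :
    FaciallyExposed (S (n := n) I k) := by
  intro F hF hne hFS
  obtain ⟨a, z, hgood, hFz, -, -⟩ := good_of_face hkn hF hne
  rw [hFz] at hFS ⊢
  exact exposed_Fz hgood (Or.inr trivial) hFS

end

end V11196.FS
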