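import Pool.Agent.V11196.FS.Sig

/-! `S` is a spectrahedron. -/

open Set Filter Topology Matrix

namespace V11196.FS

noncomputable section

section blocks
variable {β γ : Type} [Fintype β] [Fintype γ] [DecidableEq β] [DecidableEq γ]

/-- block diagonal matrix with arrow-shaped blocks `[[c, rᵀ], [r, t·1]]` -/
def NN (c : β → ℝ) (r : β → γ → ℝ) (t : ℝ) : Matrix (β × Option γ) (β × Option γ) ℝ :=
  fun p q => if p.1 = q.1 then
    (match p.2, q.2 with
      | none, none => c p.1
      | none, some j => r p.1 j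
      | some i, none => r p.1 i
      | some i, some j => if i = j then t else 0) else 0

lemma NN_symm (c : β → ℝ) (r : β → γ → ℝ) (t : ℝ) : (NN c r t).IsSymm := by
  ext ⟨b, o⟩ ⟨b', o'⟩
  simp only [Matrix.transpose_apply, NN]
  by_cases h : b = b'
  · subst h
    rcases o with _ | i <;> rcases o' with _ | j <;> simp [eq_comm]
  · rw [if_neg h, if_neg (Ne.symm h)]

lemma quad (c : β → ℝ) (r : β → γ → ℝ) (v : β × Option γ → ℝ) :
    v ⬝ᵥ (NN c r 1 *ᵥ v) = ∑ b, (c b * v (b, none) ^ 2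
      + 2 * v (b, none) * ∑ j, r b j * v (b, some j) + ∑ j, v (b, some j) ^ 2) := by
  have h1 : ∀ p : β × Option γ, (NN c r 1 *ᵥ v) p = (match p.2 with
      | none => c p.1 * v (p.1, none) + ∑ j, r p.1 j * v (p.1, some j)
      | some i => r p.1 i * v (p.1, none) + v (p.1, some i)) := by
    rintro ⟨b, o⟩
    simp only [Matrix.mulVec, dotProduct, Fintype.sum_prod_type, Fintype.sum_option, NN]
    rw [Finset.sum_eq_single b]
    · rcases o with _ | i
      · simp
      · simp
    · intro b' _ hb'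
      simp [Ne.symm hb']
    · intro h
      exact absurd (Finset.mem_univ b) h
  simp only [dotProduct]
  simp_rw [h1]
  rw [Fintype.sum_prod_type]
  apply Finset.sum_congr rfl
  intro b _
  rw [Fintype.sum_option]
  simp only
  have h2 : ∀ i, v (b, some i) * (r b i * v (b, none) + v (b, some i))
      = v (b, none) * (r b i * v (b, some i)) + v (b, some i) ^ 2 := by intro i; ring
  simp_rw [h2]
  rw [Finset.sum_add_distrib, ← Finset.mul_sum]
  ring

lemma NN_psd (c : β → ℝ) (r : β → γ → ℝ) :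
    (NN c r 1).PosSemidef ↔ ∀ b, ∑ j, r b j ^ 2 ≤ c b := by
  rw [Matrix.posSemidef_iff_dotProduct_mulVec]
  constructor
  · rintro ⟨_, h⟩ b
    have h1 := h (fun p => if p.1 = b then (match p.2 with | none => 1 | some j => - r b j) else 0)
    rw [star_trivial, quad, Finset.sum_eq_single b] at h1
    · simp only [if_true] at h1
      have h2 : ∀ j, r b j * -r b j = -(r b j ^ 2) := by intro j; ring
      simp_rw [h2] at h1
      rw [Finset.sum_neg_distrib] at h1
      simp only [neg_sq] at h1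
      linarith
    · intro b' _ hb'
      simp [hb']
    · intro h
      exact absurd (Finset.mem_univ b) h
  · intro h
    refine ⟨?_, ?_⟩
    · have := NN_symm c r 1
      rw [Matrix.IsHermitian, Matrix.conjTranspose_eq_transpose_of_trivial]
      exact this
    · intro v
      rw [star_trivial, quad]
      apply Finset.sum_nonneg
      intro b _
      have h1 := h b
      have h2 : 0 ≤ ∑ j, (v (b, some j) + v (b, none) * r b j) ^ 2 :=
        Finset.sum_nonneg fun j _ => by positivity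
      have h3 : ∑ j, (v (b, some j) + v (b, none) * r b j) ^ 2
          = ∑ j, v (b, some j) ^ 2 + 2 * v (b, none) * ∑ j, r b j * v (b, some j)
            + v (b, none) ^ 2 * ∑ j, r b j ^ 2 := by
        rw [Finset.mul_sum, Finset.mul_sum, ← Finset.sum_add_distrib, ← Finset.sum_add_distrib]
        apply Finset.sum_congr rfl
        intro j _
        ring
      have h4 : v (b, none) ^ 2 * ∑ j, r b j ^ 2 ≤ v (b, none) ^ 2 * c b :=
        mul_le_mul_of_nonneg_left h1 (by positivity)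
      nlinarith

lemma NN_comb {ι : Type} [Fintype ι] (c0 : β → ℝ) (r0 : β → γ → ℝ) (c1 : ι → β → ℝ)
    (r1 : ι → β → γ → ℝ) (x : ι → ℝ) :
    NN c0 r0 1 + ∑ i, x i • NN (c1 i) (r1 i) 0 =
      NN (fun b => c0 b + ∑ i, x i * c1 i b) (fun b j => r0 b j + ∑ i, x i * r1 i b j) 1 := by
  ext ⟨b, o⟩ ⟨b', o'⟩
  rw [Matrix.add_apply, Matrix.sum_apply]
  simp only [Matrix.smul_apply, NN, smul_eq_mul]
  by_cases h : b = b'
  · subst h
    rcases o with _ | i <;> rcases o' with _ | j <;> simp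
  · simp [h]

end blocks

variable {n : ℕ}

/-- general criterion: a set given by finitely many inequalities `|r_b(x)|² ≤ c_b(x)` with affine
`r_b`, `c_b` is a spectrahedron. -/
lemma spec_of_quad {β : Type} [Fintype β] [DecidableEq β] (c0 : β → ℝ) (r0 : β → Fin n → ℝ)
    (c1 : Fin n → β → ℝ) (r1 : Fin n → β → Fin n → ℝ) (C : Set (Rn n))
    (hC : ∀ x : Rn n, x ∈ C ↔ ∀ b, ∑ j, (r0 b j + ∑ i, x i * r1 i b j) ^ 2
      ≤ c0 b + ∑ i, x i * c1 i b) : IsSpectrahedron C := by
  let e := Fintype.equivFin (β × Option (Fin n))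
  refine ⟨Fintype.card (β × Option (Fin n)), (NN c0 r0 1).submatrix e.symm e.symm,
    fun i => (NN (c1 i) (r1 i) 0).submatrix e.symm e.symm, ?_, ?_, ?_⟩
  · exact (NN_symm c0 r0 1).submatrix _
  · exact fun i => (NN_symm (c1 i) (r1 i) 0).submatrix _
  · ext x
    rw [hC x, mem_ofPred_eq]
    have h1 : (NN c0 r0 1).submatrix e.symm e.symm + ∑ i, x i •
        (NN (c1 i) (r1 i) 0).submatrix e.symm e.symm =
        (NN c0 r0 1 + ∑ i, x i • NN (c1 i) (r1 i) 0).submatrix e.symm e.symm := by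
      ext p q
      simp [Matrix.sum_apply]
    rw [h1, Matrix.posSemidef_submatrix_equiv, NN_comb, NN_psd]

lemma S_spec (I : Finset ℕ) (k : ℕ) : IsSpectrahedron (S (n := n) I k) := by
  classical
  -- blocks indexed by `Option (Fin n)`: `none` is the ball
  refine spec_of_quad (β := Option (Fin n))
    (fun b => match b with
      | none => 1
      | some a => if (a : ℕ) ∈ I ∧ k < (a : ℕ) then 1 - dl n - 2 else 1)
    (fun b j => match b with
      | none => if k ≤ (j : ℕ) then 2 else 0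
      | some a => if ((a : ℕ) ∈ I ∧ k < (a : ℕ)) ∧ (a : ℕ) + 1 ≤ (j : ℕ) then 1 else 0)
    (fun i b => match b with
      | none => 0
      | some a => if ((a : ℕ) ∈ I ∧ k < (a : ℕ)) ∧ i = a then -1 else 0)
    (fun i b j => match b with
      | none => if k ≤ (j : ℕ) ∧ i = j then 1 else 0
      | some a => if ((a : ℕ) ∈ I ∧ k < (a : ℕ)) ∧ (a : ℕ) + 1 ≤ (j : ℕ) ∧ i = j then 1 / 2 else 0)
    _ ?_
  intro x
  rw [Option.forall]
  have hball : (∑ j : Fin n, ((if k ≤ (j : ℕ) then (2:ℝ) else 0) +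
      ∑ i : Fin n, x i * (if k ≤ (j : ℕ) ∧ i = j then 1 else 0)) ^ 2 ≤
      1 + ∑ i : Fin n, x i * 0) ↔ Q k x ≤ 1 := by
    have : ∀ j : Fin n, ((if k ≤ (j : ℕ) then (2:ℝ) else 0) +
      ∑ i : Fin n, x i * (if k ≤ (j : ℕ) ∧ i = j then 1 else 0)) ^ 2
        = if k ≤ (j : ℕ) then (x j + 2) ^ 2 else 0 := by
      intro j
      by_cases hj : k ≤ (j : ℕ)
      · simp [hj]; ring
      · simp [hj]
    simp_rw [this]
    simp [Q]
  have hcap : ∀ a : Fin n, ((∑ j : Fin n, ((if ((a : ℕ) ∈ I ∧ k < (a : ℕ)) ∧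
      (a : ℕ) + 1 ≤ (j : ℕ) then (1:ℝ) else 0) + ∑ i : Fin n, x i *
      (if ((a : ℕ) ∈ I ∧ k < (a : ℕ)) ∧ (a : ℕ) + 1 ≤ (j : ℕ) ∧ i = j then 1 / 2 else 0)) ^ 2 ≤
      (if (a : ℕ) ∈ I ∧ k < (a : ℕ) then 1 - dl n - 2 else 1) + ∑ i : Fin n, x i *
      (if ((a : ℕ) ∈ I ∧ k < (a : ℕ)) ∧ i = a then -1 else 0)) ↔
      ((a : ℕ) ∈ I → k < (a : ℕ) → qa a x ≤ 1 - dl n)) := by
    intro a
    by_cases ha : (a : ℕ) ∈ I ∧ k < (a : ℕ)
    · have : ∀ j : Fin n, ((if ((a : ℕ) ∈ I ∧ k < (a : ℕ)) ∧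
          (a : ℕ) + 1 ≤ (j : ℕ) then (1:ℝ) else 0) + ∑ i : Fin n, x i *
          (if ((a : ℕ) ∈ I ∧ k < (a : ℕ)) ∧ (a : ℕ) + 1 ≤ (j : ℕ) ∧ i = j then 1 / 2 else 0)) ^ 2
          = 1 / 4 * if (a : ℕ) + 1 ≤ (j : ℕ) then (x j + 2) ^ 2 else 0 := by
        intro j
        by_cases hj : (a : ℕ) + 1 ≤ (j : ℕ)
        · simp [hj, ha]; ring
        · simp [hj]
      simp_rw [this]
      rw [← Finset.mul_sum]
      simp only [ha, true_and, and_self, if_true, forall_const]
      unfold qa Q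
      simp
      constructor <;> intro h <;> linarith
    · have h2 : ¬ ((a : ℕ) ∈ I → k < (a : ℕ) → qa a x ≤ 1 - dl n) → False := by
        intro h
        push Not at h
        exact ha ⟨h.1, h.2.1⟩
      simp only [ha, false_and, if_false]
      constructor
      · intro _
        by_contra h
        exact h2 h
      · intro _
        simp
  constructor
  · rintro ⟨h1, h2⟩
    exact ⟨hball.mpr h1, fun a => (hcap a).mpr (h2 a)⟩
  · rintro ⟨h1, h2⟩
    exact ⟨hball.mp h1, fun a => (hcap a).mp (h2 a)⟩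

end

end V11196.FS
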